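import Pool.Agent.Helper95.Lin.Defs

/-! # Goals A: complex analysis and the Lie algebra of generators -/

open Complex Metric Set Filter Topology MeasureTheory
open scoped ContDiff ComplexConjugate ComplexOrder

namespace Pool.Agent.Helper95.Lin

/-! ## Basic complex analysis -/

/-- Montel's theorem. -/
def S_MONTEL : Prop := ∀ {n m : ℕ} (U : Set (Cn n)), IsOpen U → ∀ f : ℕ → Cn n → Cn m,
  (∀ k, DifferentiableOn ℂ (f k) U) →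
  (∀ K ⊆ U, IsCompact K → ∃ C : ℝ, ∀ k, ∀ z ∈ K, ‖f k z‖ ≤ C) →
  ∃ φ : ℕ → ℕ, StrictMono φ ∧ ∃ F : Cn n → Cn m, DifferentiableOn ℂ F U ∧
    ∀ K ⊆ U, IsCompact K → ∀ ε > 0, ∀ᶠ k in atTop, ∀ z ∈ K, ‖f (φ k) z - F z‖ ≤ ε

/-- The identity theorem. -/
def S_IDT : Prop := ∀ {n m : ℕ} (U : Set (Cn n)), IsOpen U → IsPreconnected U →
  ∀ f : Cn n → Cn m, DifferentiableOn ℂ f U → ∀ z₀ ∈ U, (∀ᶠ z in 𝓝 z₀, f z = 0) →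
  ∀ z ∈ U, f z = 0

/-- Limits of holomorphic maps: the limit is holomorphic and the derivatives converge. -/
def S_DLIM : Prop := ∀ {n m : ℕ} (U : Set (Cn n)), IsOpen U → ∀ (f : ℕ → Cn n → Cn m)
  (F : Cn n → Cn m), (∀ k, DifferentiableOn ℂ (f k) U) →
  (∀ K ⊆ U, IsCompact K → ∀ ε > 0, ∀ᶠ k in atTop, ∀ z ∈ K, ‖f k z - F z‖ ≤ ε) →
  DifferentiableOn ℂ F U ∧
  ∀ K ⊆ U, IsCompact K → ∀ ε > 0, ∀ᶠ k in atTop, ∀ z ∈ K, ‖fderiv ℂ (f k) z - fderiv ℂ F z‖ ≤ ε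

/-- Cauchy estimates in the form used below: for compact `K ⊆ U` there are a compact `K' ⊆ U` and
`C` with `K` in the interior of `K'`, such that a holomorphic `f` with `‖f‖ ≤ s` on `K'` has
`‖Df‖ ≤ C s` on `K` and `‖f x - f y‖ ≤ C s ‖x - y‖` on `K`. -/
def S_CAU : Prop := ∀ {n m : ℕ} (U : Set (Cn n)), IsOpen U → ∀ K ⊆ U, IsCompact K →
  ∃ K' ⊆ U, IsCompact K' ∧ K ⊆ interior K' ∧ ∃ C : ℝ, 0 ≤ C ∧ ∀ f : Cn n → Cn m,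
    DifferentiableOn ℂ f U → ∀ s : ℝ, (∀ z ∈ K', ‖f z‖ ≤ s) →
    (∀ z ∈ K, ‖fderiv ℂ f z‖ ≤ C * s) ∧ ∀ x ∈ K, ∀ y ∈ K, ‖f x - f y‖ ≤ C * s * ‖x - y‖

/-! ## The Caratheodory distance -/

/-- Upper bound for the distance. -/
def S_CLEUP : Prop := ∀ {b : ℕ} (D : Set (Cn b)), IsOpen D → ∀ K ⊆ D, IsCompact K →
  ∃ C ρ : ℝ, 0 ≤ C ∧ 0 < ρ ∧ ∀ x ∈ K, ∀ y, ‖x - y‖ ≤ ρ → y ∈ D ∧ CLe D (C * ‖x - y‖) x y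

/-- Uniform local compactness. -/
def S_NEAR : Prop := ∀ {b : ℕ} {D : Set (Cn b)} {Γ : Type} [Group Γ] {g : Γ → Cn b → Cn b},
  HAct D g → ∃ δ : ℝ, 0 < δ ∧ ∀ K ⊆ D, IsCompact K → ∃ K' ⊆ D, IsCompact K' ∧
    ∀ x ∈ K, ∀ y ∈ D, CLe D δ x y → y ∈ K'

/-- Elements that move a point of `K` into `K` move `K` into a fixed compact set. -/
def S_STAY : Prop := ∀ {b : ℕ} {D : Set (Cn b)} {Γ : Type} [Group Γ] {g : Γ → Cn b → Cn b},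
  HAct D g → ∀ K ⊆ D, IsCompact K → ∃ K' ⊆ D, IsCompact K' ∧
    ∀ γ, (∃ z ∈ K, g γ z ∈ K) → ∀ z ∈ K, g γ z ∈ K'

/-- Powers of elements close to the identity. -/
def S_PWR : Prop := ∀ {b : ℕ} {D : Set (Cn b)} {Γ : Type} [Group Γ] {g : Γ → Cn b → Cn b},
  HAct D g → ∀ K ⊆ D, IsCompact K → ∃ C ρ : ℝ, 0 ≤ C ∧ 0 < ρ ∧
    ∀ γ, ∀ s ≤ ρ, ∀ z ∈ K, ‖g γ z - z‖ ≤ s →
      ‖g γ⁻¹ z - z‖ ≤ C * s ∧ ∀ j : ℕ, ‖g (γ ^ j) z - z‖ ≤ C * (j * s)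

/-- Iterates stay in a compact set for a fixed time. -/
def S_STEPS : Prop := ∀ {b : ℕ} {D : Set (Cn b)} {Γ : Type} [Group Γ] {g : Γ → Cn b → Cn b},
  HAct D g → ∀ K ⊆ D, IsCompact K → ∀ T : ℝ, ∃ K' ⊆ D, IsCompact K' ∧ ∃ τ₀ > 0,
    ∀ γ, ∀ τ : ℝ, 0 < τ → τ ≤ τ₀ → ∀ z ∈ K, ‖g γ z - z‖ ≤ τ → ∀ j : ℕ, j * τ ≤ T →
      g (γ ^ j) z ∈ K'

/-! ## Generators -/

/-- Linear comparison of displacements. -/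
def S_CMP : Prop := ∀ {b : ℕ} {D : Set (Cn b)} {Γ : Type} [Group Γ] {g : Γ → Cn b → Cn b},
  HAct D g → ∀ K₀ ⊆ D, IsCompact K₀ → (interior K₀).Nonempty → ∀ K ⊆ D, IsCompact K →
  ∃ C η : ℝ, 0 ≤ C ∧ 0 < η ∧ ∀ γ, ∀ s ≤ η, (∀ z ∈ K₀, ‖g γ z - z‖ ≤ s) →
    ∀ z ∈ K, ‖g γ z - z‖ ≤ C * s

/-- A limit of difference quotients is a generator. -/
def S_SCALE : Prop := ∀ {b : ℕ} {D : Set (Cn b)} {Γ : Type} [Group Γ] {g : Γ → Cn b → Cn b},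
  HAct D g → ∀ (γ : ℕ → Γ) (τ : ℕ → ℝ) (V : Cn b → Cn b), (∀ k, 0 < τ k) →
  Tendsto τ atTop (𝓝 0) → DifferentiableOn ℂ V D → (∀ z, z ∉ D → V z = 0) →
  (∀ K ⊆ D, IsCompact K → ∀ ε > 0, ∀ᶠ k in atTop, ∀ z ∈ K,
    ‖g (γ k) z - z - τ k • V z‖ ≤ ε * τ k) → InL D g V

/-- If the image of `Γ` is not discrete there is a nonzero generator. -/
def S_EXT : Prop := ∀ {b : ℕ} {D : Set (Cn b)} {Γ : Type} [Group Γ] {g : Γ → Cn b → Cn b},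
  HAct D g → ∀ K₀ ⊆ D, IsCompact K₀ → (interior K₀).Nonempty →
  (∀ η > 0, ∃ γ, (∃ z ∈ D, g γ z ≠ z) ∧ ∀ z ∈ K₀, ‖g γ z - z‖ ≤ η) →
  ∃ V, InL D g V ∧ ∃ z ∈ D, V z ≠ 0

/-- Generators form a real vector space. -/
def S_LADD : Prop := ∀ {b : ℕ} {D : Set (Cn b)} {Γ : Type} [Group Γ] {g : Γ → Cn b → Cn b},
  HAct D g → InL D g (fun _ => 0) ∧ (∀ V W, InL D g V → InL D g W → InL D g (V + W)) ∧
    ∀ V, InL D g V → ∀ r : ℝ, InL D g (r • V)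

/-- Generators are closed under locally uniform limits. -/
def S_LLIM : Prop := ∀ {b : ℕ} {D : Set (Cn b)} {Γ : Type} [Group Γ] {g : Γ → Cn b → Cn b},
  HAct D g → ∀ W : Cn b → Cn b, DifferentiableOn ℂ W D → (∀ z, z ∉ D → W z = 0) →
  (∀ K ⊆ D, IsCompact K → ∀ ε > 0, ∃ V, InL D g V ∧ ∀ z ∈ K, ‖V z - W z‖ ≤ ε) → InL D g W

/-- The first order behaviour of the adjoint action. -/
def S_ADAPX : Prop := ∀ {b : ℕ} {D : Set (Cn b)} {Γ : Type} [Group Γ] {g : Γ → Cn b → Cn b},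
  HAct D g → ∀ V W : Cn b → Cn b, DifferentiableOn ℂ V D → DifferentiableOn ℂ W D →
  ∀ K ⊆ D, IsCompact K → ∀ ε > 0, ∃ K' ⊆ D, IsCompact K' ∧ ∃ ε' > 0, ∃ σ₀ > 0,
    ∀ σ : ℝ, 0 < σ → σ < σ₀ → ∀ γ, (∀ z ∈ K', ‖g γ z - z - σ • V z‖ ≤ ε' * σ) →
      ∀ z ∈ K, ‖AdV D g γ W z - W z + σ • brV V W z‖ ≤ ε * σ

/-- The adjoint action preserves generators. -/
def S_ADL : Prop := ∀ {b : ℕ} {D : Set (Cn b)} {Γ : Type} [Group Γ] {g : Γ → Cn b → Cn b},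
  HAct D g → ∀ V, InL D g V → ∀ γ, InL D g (AdV D g γ V)

/-- Brackets of generators are generators. -/
def S_BRL : Prop := ∀ {b : ℕ} {D : Set (Cn b)} {Γ : Type} [Group Γ] {g : Γ → Cn b → Cn b},
  HAct D g → ∀ V W, InL D g V → InL D g W → InL D g (brV V W)

/-- Comparison of norms on generators. -/
def S_LCMP : Prop := ∀ {b : ℕ} {D : Set (Cn b)} {Γ : Type} [Group Γ] {g : Γ → Cn b → Cn b},
  HAct D g → ∀ K₀ ⊆ D, IsCompact K₀ → (interior K₀).Nonempty → ∀ K ⊆ D, IsCompact K →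
  ∃ C : ℝ, 0 ≤ C ∧ ∀ V, InL D g V → ∀ s : ℝ, (∀ z ∈ K₀, ‖V z‖ ≤ s) → ∀ z ∈ K, ‖V z‖ ≤ C * s

/-- The space of generators is finite dimensional. -/
def S_FIN : Prop := ∀ {b : ℕ} {D : Set (Cn b)} {Γ : Type} [Group Γ] {g : Γ → Cn b → Cn b},
  HAct D g → ∀ L : Submodule ℝ (Cn b → Cn b), (∀ V, V ∈ L ↔ InL D g V) → FiniteDimensional ℝ L

/-- The Lie algebra of generators with its adjoint action. -/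
def S_LALG : Prop := ∀ {b : ℕ} {D : Set (Cn b)} {Γ : Type} [Group Γ] {g : Γ → Cn b → Cn b},
  HAct D g → ∃ (𝔤 : Type) (_ : LieRing 𝔤) (_ : LieAlgebra ℝ 𝔤) (Φ : 𝔤 →ₗ[ℝ] (Cn b → Cn b))
    (ρ : Γ →* (𝔤 →ₗ[ℝ] 𝔤)), FiniteDimensional ℝ 𝔤 ∧ Function.Injective Φ ∧
    (∀ V, InL D g V ↔ ∃ x, Φ x = V) ∧ (∀ x y, Φ ⁅x, y⁆ = brV (Φ x) (Φ y)) ∧
    (∀ γ x y, ρ γ ⁅x, y⁆ = ⁅ρ γ x, ρ γ y⁆) ∧ ∀ γ x, Φ (ρ γ x) = AdV D g γ (Φ x)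

/-! ## Lie algebras -/

/-- A solvable Lie algebra with a group of automorphisms has an invariant abelian ideal. -/
def S_LIE1 : Prop := ∀ (𝔤 : Type) [LieRing 𝔤] [LieAlgebra ℝ 𝔤] [FiniteDimensional ℝ 𝔤]
  [Nontrivial 𝔤], LieAlgebra.IsSolvable 𝔤 → ∀ (Γ : Type) [Group Γ] (ρ : Γ →* (𝔤 →ₗ[ℝ] 𝔤)),
  (∀ γ x y, ρ γ ⁅x, y⁆ = ⁅ρ γ x, ρ γ y⁆) →
  ∃ (m : ℕ) (v : Fin m → 𝔤) (A : Γ →* Matrix (Fin m) (Fin m) ℝ), 0 < m ∧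
    LinearIndependent ℝ v ∧ (∀ i j, ⁅v i, v j⁆ = 0) ∧ ∀ γ i, ρ γ (v i) = ∑ k, A γ k i • v k

/-- The quotient of a non-solvable Lie algebra by its radical, in coordinates. -/
def S_LIE2 : Prop := ∀ (𝔤 : Type) [LieRing 𝔤] [LieAlgebra ℝ 𝔤] [FiniteDimensional ℝ 𝔤],
  ¬ LieAlgebra.IsSolvable 𝔤 → ∀ (Γ : Type) [Group Γ] (ρ : Γ →* (𝔤 →ₗ[ℝ] 𝔤)),
  (∀ γ x y, ρ γ ⁅x, y⁆ = ⁅ρ γ x, ρ γ y⁆) →
  ∃ (p : ℕ) (B : Br p) (π : 𝔤 →ₗ[ℝ] (Fin p → ℝ)) (P : Γ →* Endo p), SLie p B ∧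
    Function.Surjective π ∧ (∀ x y, π ⁅x, y⁆ = B (π x) (π y)) ∧ ∀ γ x, π (ρ γ x) = P γ (π x)

/-- Automorphisms near the identity are inner up to second order. -/
def S_RIG : Prop := ∀ (p : ℕ) (B : Br p), SLie p B → ∃ C : ℝ, 0 ≤ C ∧ ∀ h : Endo p,
  (∀ x y, h (B x y) = B (h x) (h y)) → ∃ u, ‖h - 1 - adB B u‖ ≤ C * ‖h - 1‖ ^ 2

/-- The alternative for a non-discrete group. -/
def S_ALT : Prop := ∀ {b : ℕ} {D : Set (Cn b)} {Γ : Type} [Group Γ] {g : Γ → Cn b → Cn b},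
  HAct D g → (∃ V, InL D g V ∧ ∃ z ∈ D, V z ≠ 0) →
  (∃ (m : ℕ) (V : Fin m → Cn b → Cn b) (A : Γ →* Matrix (Fin m) (Fin m) ℝ), AbFam D g m V A) ∨
  ∃ (p : ℕ) (B : Br p) (P : Γ →* Endo p), SData D g p B P

end Pool.Agent.Helper95.Lin
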