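import Pool.Agent.Helper95.Lin.Defs

/-! # Goals F: the semisimple part is trivial -/

open Complex Metric Set Filter Topology MeasureTheory
open scoped ContDiff ComplexConjugate ComplexOrder

namespace Pool.Agent.Helper95.Lin

/-- Sizes of words in commutators. -/
def S_STEPSZ : Prop := ∀ N : ℕ, ∃ C : ℝ, 1 ≤ C ∧ ∀ {n : ℕ} {M : Set (Cn n)} {Γ : Type} [Group Γ]
  {T : Γ → Cn n → Cn n}, GAct M T → ∀ (z₀ : Cn n) (r ρ d : ℝ), 0 < ρ → ρ < r →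
  ball z₀ r ⊆ M → 0 ≤ d → C * d ≤ ρ → ∀ {p : ℕ} (γ : Fin p → Γ), (∀ k, Sz T z₀ r d (γ k)) →
  ∀ δ ∈ Words N γ, Sz T z₀ (r - ρ) (C / ρ * d ^ 2) δ

/-- The linear parts of words in commutators. -/
def S_STEPA : Prop := ∀ N : ℕ, ∃ C : ℝ, 1 ≤ C ∧ ∀ {b : ℕ} {D : Set (Cn b)} {Γ : Type} [Group Γ]
  {g : Γ → Cn b → Cn b} {a β : Γ → Cn b → ℂ}, LAct D g a β → ∀ (z₀ : Cn b) (r ρ d L : ℝ),
  0 < ρ → ρ < r → ball z₀ r ⊆ D → 0 ≤ d → 0 ≤ L → C * d ≤ ρ → ∀ {p : ℕ} (γ : Fin p → Γ),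
  (∀ k, Sz g z₀ r d (γ k)) → (∀ k, Lz a z₀ r L (γ k)) → ∀ δ ∈ Words N γ,
    Lz a z₀ (r - ρ) (C / ρ * d * L) δ ∧
    (C * d * L ≤ 1 → ∀ x ∈ ball z₀ (r - ρ), ‖a δ x - 1‖ ≤ C * d * L)

/-- The recursion in the automorphism group of a semisimple Lie algebra. -/
def S_REC : Prop := ∀ (p : ℕ) (B : Br p), SLie p B → ∃ (κ ε₀ K₁ : ℝ) (N : ℕ), 0 < κ ∧ 0 < ε₀ ∧
  1 ≤ K₁ ∧ K₁ * ε₀ ≤ 1 / 2 ∧ (∀ k : Fin p, 2 * κ < ‖adB B (Pi.single k 1)‖) ∧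
  ∀ (Γ : Type) [Group Γ] (P : Γ →* Endo p), (∀ γ x y, P γ (B x y) = B (P γ x) (P γ y)) →
  ∀ ε : ℝ, 0 < ε → ε ≤ ε₀ → ∀ γ : Fin p → Γ,
  (∀ k, ‖P (γ k) - 1 - ε • adB B (Pi.single k 1)‖ ≤ κ * ε) →
  ∃ γ' : Fin p → Γ, (∀ k, γ' k ∈ Words N γ) ∧
    ∀ k, ‖P (γ' k) - 1 - (K₁ * ε ^ 2) • adB B (Pi.single k 1)‖ ≤ κ * (K₁ * ε ^ 2)

/-- A properly discontinuous cocompact action by affine maps on `D × ℂ` has no semisimple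
part. -/
def S_NOSS : Prop := ∀ {b : ℕ} {D : Set (Cn b)} {Γ : Type} [Group Γ] {g : Γ → Cn b → Cn b}
  {a β : Γ → Cn b → ℂ}, LAct D g a β → ∀ (p : ℕ) (B : Br p) (P : Γ →* Endo p),
  SData D g p B P → False

end Pool.Agent.Helper95.Lin
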