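import Pool.Agent.Helper95.Lin.Defs
import Pool.Agent.Helper92.Orb.TorusDefs

/-! # Goals I: from the action on `D × ℂ` to the affine form, and from discreteness to a lattice -/

open Complex Metric Set Filter Topology MeasureTheory
open scoped ContDiff ComplexConjugate ComplexOrder

namespace Pool.Agent.Helper95.Lin

open Pool.Agent.Helper16.Abund Pool.Agent.Helper92.Orb

/-- The set `D × ℂ` in `ℂᵇ⁺¹`. -/
def tubeS {b : ℕ} (D : Set (Cn b)) : Set (Cn (b + 1)) := {v | base v ∈ D}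

/-- The map `(z, w) ↦ (g_γ z, a_γ(z) w + β_γ(z))`. -/
noncomputable def Tt {b : ℕ} {Γ : Type} (g : Γ → Cn b → Cn b) (a β : Γ → Cn b → ℂ) (γ : Γ)
    (v : Cn (b + 1)) : Cn (b + 1) :=
  Fin.append (g γ (base v)) fun _ : Fin 1 =>
    a γ (base v) * v (Fin.natAdd b 0) + β γ (base v)

/-- The point of `ℂᵇ⁺¹` underlying a point of `D × ℂ`. -/
def tval {b : ℕ} {D : Set (Cn b)} {hD : IsOpen D} (y : TorTube hD 1) : Cn (b + 1) :=
  Subtype.val (y : tube D hD 1)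

/-- An entire function with an entire inverse is affine. -/
def S_AFF : Prop := ∀ f h : ℂ → ℂ, Differentiable ℂ f → Differentiable ℂ h → (∀ w, h (f w) = w) →
  (∀ w, f (h w) = w) → ∃ a β : ℂ, a ≠ 0 ∧ ∀ w, f w = a * w + β

/-- `Tt` is an action on `D × ℂ`. -/
def S_TGA : Prop := ∀ {b : ℕ} {D : Set (Cn b)} {Γ : Type} [Group Γ] {g : Γ → Cn b → Cn b}
  {a β : Γ → Cn b → ℂ}, LAct D g a β → GAct (tubeS D) (Tt g a β) ∧ IsConnected (tubeS D) ∧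
  (∀ K ⊆ tubeS D, IsCompact K → {γ | ∃ x ∈ K, Tt g a β γ x ∈ K}.Finite) ∧
  ∃ K ⊆ tubeS D, IsCompact K ∧ ∀ x ∈ tubeS D, ∃ γ, Tt g a β γ x ∈ K

/-- The affine form of an action on `D × ℂ`. -/
def S_T0 : Prop := ∀ {b : ℕ} {D : Set (Cn b)} (hD : IsOpen D), IsConnected D →
  Bornology.IsBounded D → ∀ (Γ : Type) [Group Γ] [MulAction Γ (TorTube hD 1)],
  OrbAction (b + 1) Γ (TorTube hD 1) →
  (∀ K : Set (TorTube hD 1), IsCompact K → {γ : Γ | ∃ y ∈ K, γ • y ∈ K}.Finite) →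
  ∃ (g : Γ → Cn b → Cn b) (a β : Γ → Cn b → ℂ), LAct D g a β ∧
    ∀ (γ : Γ) (y : TorTube hD 1), tval (γ • y) = Tt g a β γ (tval y)

/-- The Kähler metric in coordinates. -/
def S_KACT : Prop := ∀ {b : ℕ} {D : Set (Cn b)} (hD : IsOpen D) (Γ : Type) [Group Γ]
  [MulAction Γ (TorTube hD 1)] (g : Γ → Cn b → Cn b) (a β : Γ → Cn b → ℂ), LAct D g a β →
  (∀ (γ : Γ) (y : TorTube hD 1), tval (γ • y) = Tt g a β γ (tval y)) →
  ∀ h : TorTube hD 1 → Matrix (Fin (b + 1)) (Fin (b + 1)) ℂ,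
  KahlerMetric (b + 1) (TorTube hD 1) h →
  (∀ γ : Γ, InvMetric (b + 1) h (fun y : TorTube hD 1 => γ • y)) →
  ∃ H : Cn (b + 1) → Matrix (Fin (b + 1)) (Fin (b + 1)) ℂ, KAct (tubeS D) (Tt g a β) H

/-! ## The discrete case -/

/-- The image of `Γ` in the automorphism group of `D` is discrete. -/
def Disc {b : ℕ} (D : Set (Cn b)) {Γ : Type} (g : Γ → Cn b → Cn b) : Prop :=
  ∃ K₀ ⊆ D, IsCompact K₀ ∧ ∃ η > 0, ∀ γ, (∀ z ∈ K₀, ‖g γ z - z‖ ≤ η) → ∀ z ∈ D, g γ z = z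

/-- Without generators the image is discrete. -/
def S_DISC : Prop := ∀ {b : ℕ} {D : Set (Cn b)} {Γ : Type} [Group Γ] {g : Γ → Cn b → Cn b},
  HAct D g → (¬ ∃ V, InL D g V ∧ ∃ z ∈ D, V z ≠ 0) → Disc D g

/-- Finitely many maps meet a compact set. -/
def S_FINMAP : Prop := ∀ {b : ℕ} {D : Set (Cn b)} {Γ : Type} [Group Γ] {g : Γ → Cn b → Cn b},
  HAct D g → Disc D g → ∀ K ⊆ D, IsCompact K → ∃ S : Finset Γ, ∀ γ, (∃ z ∈ K, g γ z ∈ K) →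
    ∃ σ ∈ S, ∀ z ∈ D, g γ z = g σ z

/-- The elements acting trivially on `D` act cocompactly on each fibre. -/
def S_FIBC : Prop := ∀ {b : ℕ} {D : Set (Cn b)} {Γ : Type} [Group Γ] {g : Γ → Cn b → Cn b}
  {a β : Γ → Cn b → ℂ}, LAct D g a β → Disc D g → ∀ z ∈ D, ∃ R : ℝ, ∀ w : ℂ, ∃ γ,
    (∀ y ∈ D, g γ y = y) ∧ ‖a γ z * w + β γ z‖ ≤ R

/-- A cocompact, properly discontinuous group of affine maps of `ℂ` contains two independent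
translations. -/
def S_CRYST : Prop := ∀ (N : Type) [Group N] (α β : N → ℂ), (∀ ν, α ν ≠ 0) → α 1 = 1 → β 1 = 0 →
  (∀ ν ν', α (ν * ν') = α ν * α ν') → (∀ ν ν', β (ν * ν') = α ν * β ν' + β ν) →
  (∀ R : ℝ, {ν | ∃ w : ℂ, ‖w‖ ≤ R ∧ ‖α ν * w + β ν‖ ≤ R}.Finite) →
  (∃ R : ℝ, ∀ w : ℂ, ∃ ν, ‖α ν * w + β ν‖ ≤ R) →
  ∃ ν₁ ν₂, α ν₁ = 1 ∧ α ν₂ = 1 ∧ LinearIndependent ℝ ![β ν₁, β ν₂]

/-- The lattice in the discrete case. -/
def S_LATT : Prop := ∀ {b : ℕ} {D : Set (Cn b)} {Γ : Type} [Group Γ] {g : Γ → Cn b → Cn b}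
  {a β : Γ → Cn b → ℂ}, LAct D g a β → Disc D g → ∃ ν₁ ν₂ : Γ,
    (∀ z ∈ D, g ν₁ z = z ∧ g ν₂ z = z ∧ a ν₁ z = 1 ∧ a ν₂ z = 1) ∧
    ∀ z ∈ D, LinearIndependent ℝ ![β ν₁ z, β ν₂ z]

/-! ## Assembly -/

/-- The Caratheodory volume of a commutative family over a Kähler quotient. -/
def S_APPK : Prop := ∀ {b : ℕ} {D : Set (Cn b)} {Γ : Type} [Group Γ] {g : Γ → Cn b → Cn b}
  {a β : Γ → Cn b → ℂ} {H : Cn (b + 1) → Matrix (Fin (b + 1)) (Fin (b + 1)) ℂ},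
  LAct D g a β → KAct (tubeS D) (Tt g a β) H →
  ∀ {m : ℕ} {V : Fin m → Cn b → Cn b} {A : Γ →* Matrix (Fin m) (Fin m) ℝ}, AbFam D g m V A →
  (∀ z ∈ D, 0 < carF D V z) ∧ MeanOn (fun z => Real.log (carF D V z)) D

/-- The image of `Γ` is discrete. -/
def S_DISCR : Prop := ∀ {b : ℕ} {D : Set (Cn b)} {Γ : Type} [Group Γ] {g : Γ → Cn b → Cn b}
  {a β : Γ → Cn b → ℂ} {H : Cn (b + 1) → Matrix (Fin (b + 1)) (Fin (b + 1)) ℂ},
  LAct D g a β → KAct (tubeS D) (Tt g a β) H → Disc D g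

/-- The main theorem in coordinates. -/
def S_MAIN : Prop := ∀ {b : ℕ} {D : Set (Cn b)} (hD : IsOpen D), IsConnected D →
  Bornology.IsBounded D → ∀ (Γ : Type) [Group Γ] [MulAction Γ (TorTube hD 1)],
  OrbAction (b + 1) Γ (TorTube hD 1) →
  (∀ K : Set (TorTube hD 1), IsCompact K → {γ : Γ | ∃ y ∈ K, γ • y ∈ K}.Finite) →
  (∃ h, KahlerMetric (b + 1) (TorTube hD 1) h ∧
    ∀ γ : Γ, InvMetric (b + 1) h (fun y : TorTube hD 1 => γ • y)) →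
  ∃ Λ : Cn b → Fin (2 * 1) → Fin 1 → ℂ, LatticeFamily D Λ ∧ ContainsLattice hD Λ Γ

end Pool.Agent.Helper95.Lin
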