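import Pool.Agent.Helper95.Lin.Defs

/-! # Goals H: the main theorem on semi-invariant plurisubharmonic functions -/

open Complex Metric Set Filter Topology MeasureTheory
open scoped ContDiff ComplexConjugate ComplexOrder

namespace Pool.Agent.Helper95.Lin

/-! ## The operator of a Kähler metric -/

/-- The cofactors of a Kähler metric are divergence free. -/
def S_PHDIV : Prop := ∀ {n : ℕ} (M : Set (Cn n)) (H : Cn n → Matrix (Fin n) (Fin n) ℂ), IsOpen M →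
  (∀ x ∈ M, (H x).IsHermitian) → (∀ i j, ContDiffOn ℝ ∞ (fun x => H x i j) M) →
  (∀ x ∈ M, ∀ i j l, cd l (fun y => H y i j) x = cd i (fun y => H y l j) x) →
  (∀ a b, ContDiffOn ℝ ∞ (PH H a b) M) ∧ (∀ a b, ∀ x ∈ M, PH H a b x = PH H b a x) ∧
  ∀ b, ∀ x ∈ M, ∑ a, dd (PH H a b) a x = 0

/-- Naturality of the operator. -/
def S_PHNAT : Prop := ∀ {n : ℕ} (M : Set (Cn n)) (H : Cn n → Matrix (Fin n) (Fin n) ℂ)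
  (T : Cn n → Cn n), IsOpen M → (∀ x ∈ M, T x ∈ M) → DifferentiableOn ℂ T M →
  (∀ x ∈ M, ∀ u v, hermi (H (T x)) (fderiv ℂ T x u) (fderiv ℂ T x v) = hermi (H x) u v) →
  ∀ φ, ContDiffOn ℝ ∞ φ M → ∀ x ∈ M,
    Lop (PH H) (φ ∘ T) x = ‖(fderiv ℂ T x).det‖ ^ 2 * Lop (PH H) φ (T x)

/-- The operator dominates the Levi form of plurisubharmonic functions. -/
def S_PHELL : Prop := ∀ {n : ℕ} (M : Set (Cn n)) (H : Cn n → Matrix (Fin n) (Fin n) ℂ), IsOpen M →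
  (∀ x ∈ M, (H x).PosDef) → (∀ i j, ContinuousOn (fun x => H x i j) M) →
  ∀ K ⊆ M, IsCompact K → ∃ C : ℝ, 0 ≤ C ∧ ∀ φ : Cn n → ℝ, ContDiffOn ℝ ∞ φ M → ∀ x ∈ K,
    (∀ e, 0 ≤ lev φ x e) → 0 ≤ Lop (PH H) φ x ∧ ∀ e, ‖e‖ ≤ 1 → lev φ x e ≤ C * Lop (PH H) φ x

/-- A Kähler action gives an elliptic action. -/
def S_KE : Prop := ∀ {n : ℕ} {M : Set (Cn n)} {Γ : Type} [Group Γ] {T : Γ → Cn n → Cn n}
  {H : Cn n → Matrix (Fin n) (Fin n) ℂ}, KAct M T H → EAct M T (PH H)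

/-! ## Calculus -/

/-- Symmetry of the operator. -/
def S_IBP : Prop := ∀ {n : ℕ} (M : Set (Cn n)) (P : Fin n × Bool → Fin n × Bool → Cn n → ℝ),
  IsOpen M → (∀ a b, ContDiffOn ℝ ∞ (P a b) M) → (∀ a b, ∀ x ∈ M, P a b x = P b a x) →
  (∀ b, ∀ x ∈ M, ∑ a, dd (P a b) a x = 0) → ∀ φ ψ, TestF M φ → ContDiffOn ℝ ∞ ψ M →
  ∫ x in M, ψ x * Lop P φ x = ∫ x in M, φ x * Lop P ψ x

/-- The Leibniz rule. -/
def S_LEIB : Prop := ∀ {n : ℕ} (M : Set (Cn n)) (P : Fin n × Bool → Fin n × Bool → Cn n → ℝ),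
  IsOpen M → (∀ a b, ∀ x ∈ M, P a b x = P b a x) → ∀ φ ψ, ContDiffOn ℝ ∞ φ M →
  ContDiffOn ℝ ∞ ψ M → ∀ x ∈ M, Lop P (φ * ψ) x =
    φ x * Lop P ψ x + ψ x * Lop P φ x + 2 * Bop P φ ψ x

/-- The chain rule for an exponential. -/
def S_LEXP : Prop := ∀ {n : ℕ} (M : Set (Cn n)) (P : Fin n × Bool → Fin n × Bool → Cn n → ℝ),
  IsOpen M → ∀ ρ : Cn n → ℝ, ContDiffOn ℝ ∞ ρ M → ∀ t : ℝ, ∀ x ∈ M,
    Lop P (fun y => Real.exp (t * ρ y)) x =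
      Real.exp (t * ρ x) * (t * Lop P ρ x + t ^ 2 * Bop P ρ ρ x)

/-- Integration by parts for the Levi form. -/
def S_LEVIBP : Prop := ∀ {n : ℕ} (M : Set (Cn n)), IsOpen M → ∀ φ ψ : Cn n → ℝ, TestF M φ →
  ContDiffOn ℝ ∞ ψ M → ∀ e : Cn n, ∫ x in M, ψ x * lev φ x e = ∫ x in M, φ x * lev ψ x e

/-- Change of variables. -/
def S_CHV : Prop := ∀ {n : ℕ} {M : Set (Cn n)} {Γ : Type} [Group Γ] {T : Γ → Cn n → Cn n},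
  GAct M T → ∀ (f : Cn n → ℝ) (γ : Γ), ∫ x in M, Jac T γ x * f (T γ x) = ∫ x in M, f x

/-! ## Partition of unity and the equivariant exponent -/

/-- A smooth function with compact support whose translates sum up to `1`. -/
structure IsPU {n : ℕ} (M : Set (Cn n)) {Γ : Type} [Group Γ] (T : Γ → Cn n → Cn n)
    (χ : Cn n → ℝ) : Prop where
  test : TestF M χ
  nonneg : ∀ x, 0 ≤ χ x
  fin : ∀ K ⊆ M, IsCompact K → {γ | ∃ x ∈ K, T γ x ∈ tsupport χ}.Finite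
  sum : ∀ x ∈ M, ∑ᶠ γ, χ (T γ x) = 1

def S_PU : Prop := ∀ {n : ℕ} {M : Set (Cn n)} {Γ : Type} [Group Γ] {T : Γ → Cn n → Cn n},
  GAct M T → (∀ K ⊆ M, IsCompact K → {γ | ∃ x ∈ K, T γ x ∈ K}.Finite) →
  (∃ K ⊆ M, IsCompact K ∧ ∀ x ∈ M, ∃ γ, T γ x ∈ K) → ∃ χ, IsPU M T χ

/-- A smooth function `ρ` with `ρ ∘ γ = ρ + c(γ)`. -/
def S_RHO : Prop := ∀ {n : ℕ} {M : Set (Cn n)} {Γ : Type} [Group Γ] {T : Γ → Cn n → Cn n}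
  {χ : Cn n → ℝ}, GAct M T → IsPU M T χ → ∀ c : Γ → ℝ, (∀ γ γ', c (γ * γ') = c γ + c γ') →
  ∃ ρ : Cn n → ℝ, ContDiffOn ℝ ∞ ρ M ∧ ∀ γ, ∀ x ∈ M, ρ (T γ x) = ρ x + c γ

/-- Unfolding for a local, additive and natural operator `N`. -/
def S_UNF : Prop := ∀ {n : ℕ} {M : Set (Cn n)} {Γ : Type} [Group Γ] {T : Γ → Cn n → Cn n}
  {χ : Cn n → ℝ}, GAct M T → IsPU M T χ → ∀ N : (Cn n → ℝ) → Cn n → ℝ,
  (∀ φ, ContDiffOn ℝ ∞ φ M → ContinuousOn (N φ) M) →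
  (∀ φ ψ, ContDiffOn ℝ ∞ φ M → ContDiffOn ℝ ∞ ψ M → ∀ x ∈ M, φ =ᶠ[𝓝 x] ψ → N φ x = N ψ x) →
  (∀ φ ψ, ContDiffOn ℝ ∞ φ M → ContDiffOn ℝ ∞ ψ M → ∀ x ∈ M, N (φ + ψ) x = N φ x + N ψ x) →
  (∀ γ φ, ContDiffOn ℝ ∞ φ M → ∀ x ∈ M, N (φ ∘ T γ) x = Jac T γ x * N φ (T γ x)) →
  ∫ x in M, N χ x = ∫ x in M, χ x * N (fun _ => 1) x

/-- The integral of `Lρ` over the quotient vanishes. -/
def S_LRHO : Prop := ∀ {n : ℕ} {M : Set (Cn n)} {Γ : Type} [Group Γ] {T : Γ → Cn n → Cn n}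
  {P : Fin n × Bool → Fin n × Bool → Cn n → ℝ} {χ : Cn n → ℝ}, EAct M T P → IsPU M T χ →
  ∀ (ρ : Cn n → ℝ) (c : Γ → ℝ), ContDiffOn ℝ ∞ ρ M → (∀ γ, ∀ x ∈ M, ρ (T γ x) = ρ x + c γ) →
  ∫ x in M, χ x * Lop P ρ x = 0

/-- The total mass of the measure `L(F^s)` over the quotient. -/
def S_MASS : Prop := ∀ {n : ℕ} {M : Set (Cn n)} {Γ : Type} [Group Γ] {T : Γ → Cn n → Cn n}
  {P : Fin n × Bool → Fin n × Bool → Cn n → ℝ} {χ : Cn n → ℝ}, EAct M T P → IsPU M T χ →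
  ∀ (ρ : Cn n → ℝ) (c : Γ → ℝ), ContDiffOn ℝ ∞ ρ M → (∀ γ, ∀ x ∈ M, ρ (T γ x) = ρ x + c γ) →
  ∀ F : Cn n → ℝ, ContinuousOn F M → (∀ x ∈ M, 0 ≤ F x) →
  (∀ γ, ∀ x ∈ M, F (T γ x) = Real.exp (c γ) * F x) → ∀ s : ℝ, 0 < s →
  ∫ x in M, F x ^ s * Lop P (fun y => χ y * Real.exp (-s * ρ y)) x =
    ∫ x in M, χ x * (F x * Real.exp (-ρ x)) ^ s * (-s * Lop P ρ x + s ^ 2 * Bop P ρ ρ x)

/-- The mass is `o(s)`. -/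
def S_MLIM : Prop := ∀ {n : ℕ} {M : Set (Cn n)} {Γ : Type} [Group Γ] {T : Γ → Cn n → Cn n}
  {P : Fin n × Bool → Fin n × Bool → Cn n → ℝ} {χ : Cn n → ℝ}, EAct M T P → IsPU M T χ →
  ∀ (ρ : Cn n → ℝ) (c : Γ → ℝ), ContDiffOn ℝ ∞ ρ M → (∀ γ, ∀ x ∈ M, ρ (T γ x) = ρ x + c γ) →
  ∀ F : Cn n → ℝ, ContinuousOn F M → (∀ x ∈ M, 0 ≤ F x) →
  (∀ γ, ∀ x ∈ M, F (T γ x) = Real.exp (c γ) * F x) → volume {x | x ∈ M ∧ F x = 0} = 0 →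
  Tendsto (fun s : ℝ => s⁻¹ * ∫ x in M, F x ^ s * Lop P (fun y => χ y * Real.exp (-s * ρ y)) x)
    (𝓝[>] 0) (𝓝 0)

/-! ## Plurisubharmonic functions -/

/-- Smooth plurisubharmonic approximation near a compact set. -/
def S_MOLL : Prop := ∀ {n : ℕ} (M : Set (Cn n)), IsOpen M → ∀ u : Cn n → ℝ, ContinuousOn u M →
  PshOn u M → ∀ K ⊆ M, IsCompact K → ∀ ε > 0, ∃ v : Cn n → ℝ, ContDiff ℝ ∞ v ∧
    (∀ x ∈ K, |v x - u x| ≤ ε) ∧ ∀ x ∈ K, ∀ e, 0 ≤ lev v x e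

/-- Positivity. -/
def S_POS : Prop := ∀ {n : ℕ} {M : Set (Cn n)} {Γ : Type} [Group Γ] {T : Γ → Cn n → Cn n}
  {P : Fin n × Bool → Fin n × Bool → Cn n → ℝ}, EAct M T P → ∀ u : Cn n → ℝ, ContinuousOn u M →
  PshOn u M → ∀ φ, TestF M φ → (∀ x, 0 ≤ φ x) → 0 ≤ ∫ x in M, u x * Lop P φ x

/-- Domination of the Levi form. -/
def S_LEV : Prop := ∀ {n : ℕ} {M : Set (Cn n)} {Γ : Type} [Group Γ] {T : Γ → Cn n → Cn n}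
  {P : Fin n × Bool → Fin n × Bool → Cn n → ℝ}, EAct M T P → ∀ φ, TestF M φ → (∀ x, 0 ≤ φ x) →
  ∃ C : ℝ, 0 ≤ C ∧ ∀ u : Cn n → ℝ, ContinuousOn u M → PshOn u M → ∀ ψ, TestF M ψ →
    (∀ x, |ψ x| ≤ φ x) → ∀ e, ‖e‖ ≤ 1 → |∫ x in M, u x * lev ψ x e| ≤
      C * ∫ x in M, u x * Lop P φ x

/-- Domination by the fundamental mass. -/
def S_MDOM : Prop := ∀ {n : ℕ} {M : Set (Cn n)} {Γ : Type} [Group Γ] {T : Γ → Cn n → Cn n}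
  {P : Fin n × Bool → Fin n × Bool → Cn n → ℝ} {χ : Cn n → ℝ}, EAct M T P → IsPU M T χ →
  ∀ (ρ : Cn n → ℝ) (c : Γ → ℝ), ContDiffOn ℝ ∞ ρ M → (∀ γ, ∀ x ∈ M, ρ (T γ x) = ρ x + c γ) →
  ∀ F : Cn n → ℝ, ContinuousOn F M → (∀ x ∈ M, 0 ≤ F x) →
  (∀ γ, ∀ x ∈ M, F (T γ x) = Real.exp (c γ) * F x) →
  (∀ s : ℝ, 0 < s → s ≤ 1 → PshOn (fun x => F x ^ s) M) →
  ∀ φ, TestF M φ → (∀ x, 0 ≤ φ x) → ∃ C : ℝ, 0 ≤ C ∧ ∀ s : ℝ, 0 < s → s ≤ 1 →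
    ∫ x in M, F x ^ s * Lop P φ x ≤
      C * ∫ x in M, F x ^ s * Lop P (fun y => χ y * Real.exp (-s * ρ y)) x

/-! ## The logarithm -/

/-- Local integrability of `log F`. -/
def S_LOGINT : Prop := ∀ {n : ℕ} (M : Set (Cn n)), IsOpen M → ∀ F : Cn n → ℝ, ContinuousOn F M →
  (∀ x ∈ M, 0 ≤ F x) → (∀ s : ℝ, 0 < s → s ≤ 1 → PshOn (fun x => F x ^ s) M) →
  (∀ U ⊆ M, IsOpen U → U.Nonempty → ∃ x ∈ U, 0 < F x) →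
  volume {x | x ∈ M ∧ F x = 0} = 0 ∧
  ∀ K ⊆ M, IsCompact K → IntegrableOn (fun x => Real.log (F x)) K

/-- The weak equation for `log F`. -/
def S_WEAK : Prop := ∀ {n : ℕ} (M : Set (Cn n)), IsOpen M → ∀ F : Cn n → ℝ, ContinuousOn F M →
  (∀ x ∈ M, 0 ≤ F x) → volume {x | x ∈ M ∧ F x = 0} = 0 →
  (∀ K ⊆ M, IsCompact K → IntegrableOn (fun x => Real.log (F x)) K) →
  ∀ ψ, TestF M ψ → ∀ e, Tendsto (fun s : ℝ => s⁻¹ * ∫ x in M, F x ^ s * lev ψ x e)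
    (𝓝[>] 0) (𝓝 (∫ x in M, Real.log (F x) * lev ψ x e))

/-- Mollifications of weakly pluriharmonic functions do not depend on the parameter and have the
mean value property. -/
def S_MOLW : Prop := ∀ {n : ℕ} (M : Set (Cn n)), IsOpen M → ∀ u : Cn n → ℝ,
  (∀ K ⊆ M, IsCompact K → IntegrableOn u K) →
  (∀ ψ, TestF M ψ → ∀ e, ∫ x in M, u x * lev ψ x e = 0) →
  ∀ ε₀ > 0, ∀ M' ⊆ M, IsOpen M' → (∀ x ∈ M', closedBall x ε₀ ⊆ M) →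
    (∀ ε, 0 < ε → 2 * ε ≤ ε₀ → ContinuousOn (moll u ε) M' ∧ MeanOn (moll u ε) M') ∧
    ∀ ε ε', 0 < ε → 0 < ε' → 2 * ε ≤ ε₀ → 2 * ε' ≤ ε₀ → ∀ x ∈ M', closedBall x ε₀ ⊆ M' →
      moll u ε x = moll u ε' x

/-- Mollifications converge at points of continuity. -/
def S_MOLC : Prop := ∀ {n : ℕ} (u : Cn n → ℝ) (x : Cn n), ContinuousAt u x →
  (∃ r > 0, IntegrableOn u (closedBall x r)) → Tendsto (fun ε => moll u ε x) (𝓝[>] 0) (𝓝 (u x))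

/-- Conclusion. -/
def S_LOGH : Prop := ∀ {n : ℕ} (M : Set (Cn n)), IsOpen M → ∀ F : Cn n → ℝ, ContinuousOn F M →
  (∀ x ∈ M, 0 ≤ F x) → (∀ U ⊆ M, IsOpen U → U.Nonempty → ∃ x ∈ U, 0 < F x) →
  (∀ K ⊆ M, IsCompact K → IntegrableOn (fun x => Real.log (F x)) K) →
  (∀ ψ, TestF M ψ → ∀ e, ∫ x in M, Real.log (F x) * lev ψ x e = 0) →
  (∀ x ∈ M, 0 < F x) ∧ MeanOn (fun x => Real.log (F x)) M

/-- The main theorem: a semi-invariant function with plurisubharmonic powers has no zeros and a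
pluriharmonic logarithm. -/
def S_KMAIN : Prop := ∀ {n : ℕ} {M : Set (Cn n)} {Γ : Type} [Group Γ] {T : Γ → Cn n → Cn n}
  {P : Fin n × Bool → Fin n × Bool → Cn n → ℝ}, EAct M T P → ∀ (F : Cn n → ℝ) (c : Γ → ℝ),
  ContinuousOn F M → (∀ x ∈ M, 0 ≤ F x) →
  (∀ s : ℝ, 0 < s → s ≤ 1 → PshOn (fun x => F x ^ s) M) →
  (∀ U ⊆ M, IsOpen U → U.Nonempty → ∃ x ∈ U, 0 < F x) →
  (∀ γ, ∀ x ∈ M, F (T γ x) = Real.exp (c γ) * F x) →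
  (∀ x ∈ M, 0 < F x) ∧ MeanOn (fun x => Real.log (F x)) M

end Pool.Agent.Helper95.Lin
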