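import Pool.Agent.Helper95.Lin.GoalsD
import Pool.Agent.Helper8.Abund.FDerivHolo
import Pool.Agent.Helper36.Abund.Area

/-! # Shared lemmas -/

open Complex Metric Set Filter Topology MeasureTheory
open scoped ContDiff ComplexConjugate ComplexOrder

namespace Pool.Agent.Helper95.Lin

/-! ## Holomorphic maps are smooth -/

section smooth

universe u

theorem holo_contDiffOn_nat {n : ℕ} {U : Set (Cn n)} (hU : IsOpen U) :
    ∀ (k : ℕ) {F : Type u} [NormedAddCommGroup F] [NormedSpace ℂ F] [CompleteSpace F]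
      {f : Cn n → F}, DifferentiableOn ℂ f U → ContDiffOn ℂ k f U := by
  intro k
  induction k with
  | zero =>
    intro F _ _ _ f hf
    exact contDiffOn_zero.2 hf.continuousOn
  | succ k ih =>
    intro F _ _ _ f hf
    push_cast
    rw [contDiffOn_succ_iff_fderiv_of_isOpen hU]
    refine ⟨hf, by simp, ih ?_⟩
    exact Pool.Agent.Helper8.Abund.differentiableOn_fderiv hU hf

variable {n : ℕ} {F : Type u} [NormedAddCommGroup F] [NormedSpace ℂ F] [CompleteSpace F]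

/-- A holomorphic map is smooth over `ℂ`. -/
theorem holo_contDiffOn {U : Set (Cn n)} (hU : IsOpen U) {f : Cn n → F}
    (hf : DifferentiableOn ℂ f U) : ContDiffOn ℂ ∞ f U :=
  contDiffOn_infty.2 fun k => holo_contDiffOn_nat hU k hf

/-- A holomorphic map is smooth over `ℝ`. -/
theorem holo_contDiffOn_real [NormedSpace ℝ F] [IsScalarTower ℝ ℂ F] {U : Set (Cn n)}
    (hU : IsOpen U) {f : Cn n → F} (hf : DifferentiableOn ℂ f U) : ContDiffOn ℝ ∞ f U :=
  (holo_contDiffOn hU hf).restrict_scalars ℝ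

/-- The derivative of a holomorphic map is holomorphic. -/
theorem holo_fderiv {U : Set (Cn n)} (hU : IsOpen U) {f : Cn n → F}
    (hf : DifferentiableOn ℂ f U) : DifferentiableOn ℂ (fderiv ℂ f) U :=
  Pool.Agent.Helper8.Abund.differentiableOn_fderiv hU hf

end smooth

/-! ## Actions -/

section act

variable {n : ℕ} {M : Set (Cn n)} {Γ : Type} [Group Γ] {T : Γ → Cn n → Cn n}

theorem GAct.inv_left (h : GAct M T) (γ : Γ) {x : Cn n} (hx : x ∈ M) : T γ⁻¹ (T γ x) = x := by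
  rw [← h.mul _ _ x hx, inv_mul_cancel, h.one x hx]

theorem GAct.inv_right (h : GAct M T) (γ : Γ) {x : Cn n} (hx : x ∈ M) : T γ (T γ⁻¹ x) = x := by
  rw [← h.mul _ _ x hx, mul_inv_cancel, h.one x hx]

theorem GAct.pow (h : GAct M T) (γ : Γ) (j : ℕ) {x : Cn n} (hx : x ∈ M) :
    T (γ ^ (j + 1)) x = T γ (T (γ ^ j) x) := by
  rw [pow_succ', h.mul _ _ x hx]

theorem GAct.pow' (h : GAct M T) (γ : Γ) (j : ℕ) {x : Cn n} (hx : x ∈ M) :
    T (γ ^ (j + 1)) x = T (γ ^ j) (T γ x) := by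
  rw [pow_succ, h.mul _ _ x hx]

theorem GAct.injOn (h : GAct M T) (γ : Γ) : InjOn (T γ) M := by
  intro x hx y hy e
  rw [← h.inv_left γ hx, e, h.inv_left γ hy]

theorem GAct.image (h : GAct M T) (γ : Γ) : T γ '' M = M := by
  ext y
  constructor
  · rintro ⟨x, hx, rfl⟩
    exact h.maps γ x hx
  · intro hy
    exact ⟨T γ⁻¹ y, h.maps _ _ hy, h.inv_right γ hy⟩

theorem GAct.contDiffOn (h : GAct M T) (γ : Γ) : ContDiffOn ℝ ∞ (T γ) M :=
  holo_contDiffOn_real h.isOpen (h.holo γ)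

end act

/-! ## The Caratheodory distance -/

section cle

variable {b : ℕ} {D : Set (Cn b)}

theorem CLe.mono {r s : ℝ} {x y : Cn b} (h : CLe D r x y) (hrs : r ≤ s) : CLe D s x y :=
  fun f hf h1 => (h f hf h1).trans hrs

theorem CLe.refl {r : ℝ} (hr : 0 ≤ r) (x : Cn b) : CLe D r x x := fun f _ _ => by simpa using hr

theorem CLe.symm {r : ℝ} {x y : Cn b} (h : CLe D r x y) : CLe D r y x := fun f hf h1 => by
  rw [norm_sub_rev]
  exact h f hf h1

theorem CLe.trans {r s : ℝ} {x y z : Cn b} (h : CLe D r x y) (h' : CLe D s y z) :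
    CLe D (r + s) x z := fun f hf h1 =>
  calc ‖f x - f z‖ ≤ ‖f x - f y‖ + ‖f y - f z‖ := norm_sub_le_norm_sub_add_norm_sub _ _ _
    _ ≤ r + s := add_le_add (h f hf h1) (h' f hf h1)

/-- Holomorphic self maps do not increase the distance. -/
theorem CLe.map {r : ℝ} {x y : Cn b} (h : CLe D r x y) {g : Cn b → Cn b}
    (hg : DifferentiableOn ℂ g D) (hm : ∀ z ∈ D, g z ∈ D) : CLe D r (g x) (g y) :=
  fun f hf h1 => h (f ∘ g) (hf.comp hg hm) fun z hz => h1 _ (hm z hz)

theorem CLe.act {Γ : Type} [Group Γ] {g : Γ → Cn b → Cn b} (hg : GAct D g) {r : ℝ} {x y : Cn b}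
    (h : CLe D r x y) (γ : Γ) : CLe D r (g γ x) (g γ y) :=
  h.map (hg.holo γ) (hg.maps γ)

theorem CLe.nonneg {r : ℝ} {x y : Cn b} (h : CLe D r x y) : 0 ≤ r := by
  simpa using h (fun _ => 0) (by fun_prop) (by simp)

/-- Lower bound for the distance. -/
theorem CLe.norm_le {r R : ℝ} {x y : Cn b} (h : CLe D r x y) (hR : 0 < R)
    (hD : ∀ z ∈ D, ‖z‖ ≤ R) : ‖x - y‖ ≤ R * r := by
  rw [pi_norm_le_iff_of_nonneg (mul_nonneg hR.le h.nonneg)]
  intro i
  have h1 := h (fun z => (R : ℂ)⁻¹ * z i) (by fun_prop) (fun z hz => by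
    rw [norm_mul, norm_inv, Complex.norm_real, Real.norm_of_nonneg hR.le]
    rw [inv_mul_le_iff₀ hR, mul_one]
    exact (norm_le_pi_norm z i).trans (hD z hz))
  simp only [← mul_sub] at h1
  rw [norm_mul, norm_inv, Complex.norm_real, Real.norm_of_nonneg hR.le,
    inv_mul_le_iff₀ hR] at h1
  exact h1

theorem Dom.exists_norm_le (hD : Dom D) : ∃ R : ℝ, 0 < R ∧ ∀ z ∈ D, ‖z‖ ≤ R := by
  obtain ⟨R, hR⟩ := hD.bdd.exists_norm_le
  exact ⟨max R 1, by positivity, fun z hz => (hR z hz).trans (le_max_left _ _)⟩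

end cle

end Pool.Agent.Helper95.Lin
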