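import Pool.Agent.Helper95.Lin.GoalsD

/-! # Goals G: the Caratheodory volume of a commutative family -/

open Complex Metric Set Filter Topology MeasureTheory
open scoped ContDiff ComplexConjugate ComplexOrder

namespace Pool.Agent.Helper95.Lin

/-- The Caratheodory volume is well defined, nonnegative and continuous. -/
def S_CARC : Prop := ∀ {b m : ℕ} (D : Set (Cn b)), IsOpen D → ∀ V : Fin m → Cn b → Cn b,
  (∀ i, DifferentiableOn ℂ (V i) D) →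
  (∀ z ∈ D, BddAbove {r : ℝ | ∃ f : Fin m → Cn b → ℂ, Adm D f ∧ r = ‖(vm V f z).det‖}) ∧
  (∀ z ∈ D, 0 ≤ carF D V z) ∧ ContinuousOn (carF D V) D

/-- Its powers are plurisubharmonic. -/
def S_CARP : Prop := ∀ {b m : ℕ} (D : Set (Cn b)), IsOpen D → ∀ V : Fin m → Cn b → Cn b,
  (∀ i, DifferentiableOn ℂ (V i) D) → ∀ s : ℝ, 0 < s → PshOn (fun z => carF D V z ^ s) D

/-- Equivariance. -/
def S_CAREQ : Prop := ∀ {b m : ℕ} {D : Set (Cn b)} {Γ : Type} [Group Γ] {g : Γ → Cn b → Cn b},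
  GAct D g → ∀ (V : Fin m → Cn b → Cn b) (A : Γ →* Matrix (Fin m) (Fin m) ℝ),
  (∀ i, DifferentiableOn ℂ (V i) D) →
  (∀ γ i, ∀ z ∈ D, fderiv ℂ (g γ) z (V i z) = ∑ k, A γ k i • V k (g γ z)) →
  ∀ γ, ∀ z ∈ D, |(A γ).det| * carF D V (g γ z) = carF D V z

/-- It does not vanish on open sets. -/
def S_CARD : Prop := ∀ {b m : ℕ} (D : Set (Cn b)), Dom D → ∀ V : Fin m → Cn b → Cn b,
  (∀ i, DifferentiableOn ℂ (V i) D) → (∀ i, ∀ z, z ∉ D → V i z = 0) → LinearIndependent ℝ V →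
  (∀ z ∈ D, ∀ lam : Fin m → ℂ, ∑ j, lam j • V j z = 0 → ∑ j, (lam j).im • V j z = 0) →
  ∀ U ⊆ D, IsOpen U → U.Nonempty → ∃ z ∈ U, 0 < carF D V z

/-- Extremal families exist. -/
def S_CAREX : Prop := ∀ {b m : ℕ} (D : Set (Cn b)), Dom D → ∀ V : Fin m → Cn b → Cn b,
  (∀ i, DifferentiableOn ℂ (V i) D) → ∀ z ∈ D, ∃ f : Fin m → Cn b → ℂ, Adm D f ∧
    ‖(vm V f z).det‖ = carF D V z

/-- If the logarithm of the volume is pluriharmonic, an extremal family is extremal at every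
point. -/
def S_EXTR : Prop := ∀ {b m : ℕ} (D : Set (Cn b)), Dom D → ∀ V : Fin m → Cn b → Cn b,
  (∀ i, DifferentiableOn ℂ (V i) D) → (∀ z ∈ D, 0 < carF D V z) →
  MeanOn (fun z => Real.log (carF D V z)) D → ∀ f : Fin m → Cn b → ℂ, Adm D f →
  ∀ z₀ ∈ D, ‖(vm V f z₀).det‖ = carF D V z₀ → ∀ z ∈ D, ‖(vm V f z).det‖ = carF D V z

/-- Uniform lower bound for the derivatives of the extremal family. -/
def S_LOWER : Prop := ∀ {b : ℕ} {D : Set (Cn b)} {Γ : Type} [Group Γ] {g : Γ → Cn b → Cn b}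
  {m : ℕ} {V : Fin m → Cn b → Cn b} {A : Γ →* Matrix (Fin m) (Fin m) ℝ},
  HAct D g → AbFam D g m V A → ∀ f : Fin m → Cn b → ℂ, Adm D f →
  (∀ z ∈ D, ‖(vm V f z).det‖ = carF D V z) → (∀ z ∈ D, 0 < carF D V z) →
  ∀ K ⊆ D, IsCompact K → ∃ c > 0, ∀ y ∈ D, ∀ γ, g γ y ∈ K → ∀ v : Fin m → ℝ,
    ∃ j, c * ‖(A γ).mulVec v‖ ≤ ‖fderiv ℂ (f j) y (∑ i, v i • V i y)‖

/-- Uniform existence time for the imaginary flows. -/
def S_EXTIME : Prop := ∀ {b : ℕ} {D : Set (Cn b)} {Γ : Type} [Group Γ] {g : Γ → Cn b → Cn b}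
  {m : ℕ} {V : Fin m → Cn b → Cn b} {A : Γ →* Matrix (Fin m) (Fin m) ℝ},
  HAct D g → AbFam D g m V A → ∀ K ⊆ D, IsCompact K → ∃ c > 0, ∀ y ∈ D, ∀ γ, g γ y ∈ K →
  ∀ v : Fin m → ℝ, ∀ δ : ℝ, 0 ≤ δ → δ * ‖(A γ).mulVec v‖ ≤ c →
    ∃ x, Sol D (fun z => I • ∑ i, v i • V i z) y δ x

/-- There are no bounded holomorphic functions on a strip whose derivatives are bounded below by
a multiple of the inverse of the distance to the boundary. -/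
def S_STRIP : Prop := ∀ (m : ℕ) (h : Fin m → ℂ → ℂ) (T c : ℝ), 0 < T → 0 < c →
  (∀ j, DifferentiableOn ℂ (h j) {ζ | 0 < ζ.im ∧ ζ.im < T}) →
  (∀ j, ∀ ζ : ℂ, 0 < ζ.im → ζ.im < T → ‖h j ζ‖ ≤ 1) →
  ¬ ∀ ζ : ℂ, 0 < ζ.im → ζ.im < T → ∃ j, c / (T - ζ.im) ≤ ‖deriv (h j) ζ‖

/-- Forward integral curves of `iV` exist for all times. -/
def S_FWD : Prop := ∀ {b : ℕ} {D : Set (Cn b)} {Γ : Type} [Group Γ] {g : Γ → Cn b → Cn b}
  {m : ℕ} {V : Fin m → Cn b → Cn b} {A : Γ →* Matrix (Fin m) (Fin m) ℝ},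
  HAct D g → AbFam D g m V A → (∀ z ∈ D, 0 < carF D V z) →
  MeanOn (fun z => Real.log (carF D V z)) D → ∀ v : Fin m → ℝ, ∀ z ∈ D,
    ∃ x, SolInf D (fun y => I • ∑ i, v i • V i y) z x

/-- There is no commutative family whose volume has pluriharmonic logarithm. -/
def S_NOAB : Prop := ∀ {b : ℕ} {D : Set (Cn b)} {Γ : Type} [Group Γ] {g : Γ → Cn b → Cn b}
  {m : ℕ} {V : Fin m → Cn b → Cn b} {A : Γ →* Matrix (Fin m) (Fin m) ℝ},
  HAct D g → AbFam D g m V A → (∀ z ∈ D, 0 < carF D V z) →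
  MeanOn (fun z => Real.log (carF D V z)) D → False

end Pool.Agent.Helper95.Lin
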