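import Pool.Agent.Helper95.Lin.Defs

/-! # Goals D: flows of generators -/

open Complex Metric Set Filter Topology MeasureTheory
open scoped ContDiff ComplexConjugate ComplexOrder

namespace Pool.Agent.Helper95.Lin

/-- `x` is an integral curve of `V` in `D` on `[0, T]`, starting at `z`. -/
def Sol {b : ℕ} (D : Set (Cn b)) (V : Cn b → Cn b) (z : Cn b) (T : ℝ) (x : ℝ → Cn b) : Prop :=
  x 0 = z ∧ ∀ t ∈ Icc (0 : ℝ) T, x t ∈ D ∧ HasDerivWithinAt x (V (x t)) (Icc 0 T) t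

/-- `x` is an integral curve of `V` in `D` on `[0, ∞)`, starting at `z`. -/
def SolInf {b : ℕ} (D : Set (Cn b)) (V : Cn b → Cn b) (z : Cn b) (x : ℝ → Cn b) : Prop :=
  x 0 = z ∧ ∀ t, 0 ≤ t → x t ∈ D ∧ HasDerivWithinAt x (V (x t)) (Ici 0) t

/-- Uniform local existence. -/
def S_PLU : Prop := ∀ {b m : ℕ} (D : Set (Cn b)), IsOpen D → ∀ V : Fin m → Cn b → Cn b,
  (∀ k, DifferentiableOn ℂ (V k) D) → ∀ K ⊆ D, IsCompact K → ∃ δ₀ > 0, ∀ w : Fin m → ℂ, ‖w‖ ≤ 1 →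
    ∀ z ∈ K, ∃ x, Sol D (fun y => ∑ k, w k • V k y) z δ₀ x

/-- Uniqueness. -/
def S_UNI : Prop := ∀ {b : ℕ} (D : Set (Cn b)), IsOpen D → ∀ V : Cn b → Cn b,
  DifferentiableOn ℂ V D → ∀ z T x y, Sol D V z T x → Sol D V z T y → ∀ t ∈ Icc (0 : ℝ) T, x t = y t

/-- Maximal solutions. -/
def S_MAXSOL : Prop := ∀ {b : ℕ} (D : Set (Cn b)), IsOpen D → ∀ V : Cn b → Cn b,
  DifferentiableOn ℂ V D → ∀ z ∈ D, (∃ x, SolInf D V z x) ∨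
    ∃ T > 0, ∃ x : ℝ → Cn b, x 0 = z ∧
      (∀ t ∈ Ico (0 : ℝ) T, x t ∈ D ∧ HasDerivWithinAt x (V (x t)) (Ici 0) t) ∧
      ∀ t ∈ Ico (0 : ℝ) T, ∀ δ ≥ 0, ∀ y, Sol D V (x t) δ y → t + δ < T

/-- Euler approximation of integral curves of generators by elements of `Γ`. -/
def S_EULER : Prop := ∀ {b : ℕ} {D : Set (Cn b)} {Γ : Type} [Group Γ] {g : Γ → Cn b → Cn b},
  HAct D g → ∀ V, InL D g V → ∀ K ⊆ D, IsCompact K → ∀ T : ℝ, 0 < T →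
  ∃ K' ⊆ D, IsCompact K' ∧
    (∀ z ∈ K, ∀ t₁ ≤ T, ∀ x, Sol D V z t₁ x → ∀ t ∈ Icc 0 t₁, x t ∈ K') ∧
    ∀ t ∈ Icc 0 T, ∀ ε > 0, ∃ γ, ∀ z ∈ K, ∀ x, Sol D V z t x → ‖x t - g γ z‖ ≤ ε

/-- Generators have complete forward integral curves. -/
def S_GLOB : Prop := ∀ {b : ℕ} {D : Set (Cn b)} {Γ : Type} [Group Γ] {g : Γ → Cn b → Cn b},
  HAct D g → ∀ V, InL D g V → ∀ z ∈ D, ∃ x, SolInf D V z x

/-- Generators have complete flows. -/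
def S_FLOWEX : Prop := ∀ {b : ℕ} {D : Set (Cn b)} {Γ : Type} [Group Γ] {g : Γ → Cn b → Cn b},
  HAct D g → ∀ V, InL D g V → ∃ φ, IsFlow D V φ

/-- Fields commuting with `W` are invariant under the flow of `W`. -/
def S_DFL : Prop := ∀ {b : ℕ} (D : Set (Cn b)), IsOpen D → ∀ (V W : Cn b → Cn b)
  (ψ : ℝ → Cn b → Cn b), DifferentiableOn ℂ V D → DifferentiableOn ℂ W D → IsFlow D W ψ →
  (∀ z ∈ D, brV V W z = 0) → ∀ s, ∀ z ∈ D, V (ψ s z) = fderiv ℂ (ψ s) z (V z)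

/-- Flowing an integral curve of `iV` by the flow of `V` gives a holomorphic curve. -/
def S_PSI : Prop := ∀ {b : ℕ} (D : Set (Cn b)), IsOpen D → ∀ (V : Cn b → Cn b)
  (φ : ℝ → Cn b → Cn b), DifferentiableOn ℂ V D → IsFlow D V φ → ∀ (J : Set ℝ), IsOpen J →
  ∀ η : ℝ → Cn b, (∀ t ∈ J, η t ∈ D ∧ HasDerivAt η (I • V (η t)) t) →
  ∀ ζ : ℂ, ζ.im ∈ J → HasDerivAt (fun ζ : ℂ => φ ζ.re (η ζ.im)) (V (φ ζ.re (η ζ.im))) ζ

/-- Complex linear relations between commuting complete fields on a bounded domain. -/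
def S_DEP : Prop := ∀ {b : ℕ} (D : Set (Cn b)), IsOpen D → Bornology.IsBounded D →
  ∀ (V W : Cn b → Cn b) (φ ψ : ℝ → Cn b → Cn b), DifferentiableOn ℂ V D →
  DifferentiableOn ℂ W D → IsFlow D V φ → IsFlow D W ψ → (∀ z ∈ D, brV V W z = 0) →
  ∀ z ∈ D, W z = I • V z → V z = 0

/-- Real and imaginary parts of complex relations in a commutative family. -/
def S_DEPF : Prop := ∀ {b : ℕ} {D : Set (Cn b)} {Γ : Type} [Group Γ] {g : Γ → Cn b → Cn b}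
  {m : ℕ} {V : Fin m → Cn b → Cn b} {A : Γ →* Matrix (Fin m) (Fin m) ℝ},
  HAct D g → AbFam D g m V A → ∀ z ∈ D, ∀ lam : Fin m → ℂ, ∑ j, lam j • V j z = 0 →
    ∑ j, (lam j).re • V j z = 0 ∧ ∑ j, (lam j).im • V j z = 0

end Pool.Agent.Helper95.Lin
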