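import Pool.Agent.Helper95.Lin.GoalsJ
import Pool.Agent.Helper92.Orb.Torus
import Pool.Agent.Helper36.Orb.P3
import Pool.Agent.Helper79.Orb.P1
import Pool.Agent.Helper16.Abund.Torus3

/-! # Conclusions from the main theorem in coordinates -/

open Complex Metric Set Filter Topology MeasureTheory
open scoped ContDiff ComplexConjugate ComplexOrder Manifold ENNReal

namespace Pool.Agent.Helper95.Lin

open Pool.Agent.Helper16.Abund Pool.Agent.Helper92.Orb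

universe u

/-- Bounded domains have finite mass. -/
theorem finiteMass_of_bounded {b : ℕ} {D : Set (Fin b → ℂ)} (hDb : Bornology.IsBounded D) :
    FiniteMassDomain D := by
  intro z _
  refine ⟨1, le_rfl, fun _ => 1, by fun_prop, one_ne_zero, ?_⟩
  simp only [norm_one, Real.one_rpow, ENNReal.ofReal_one, lintegral_const, one_mul,
    Measure.restrict_apply_univ]
  exact hDb.measure_lt_top

section orb

variable {b : ℕ} {D : Set (Fin b → ℂ)} (hD : IsOpen D)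

/-- The main theorem for groups in an arbitrary universe. -/
theorem main_univ (hmain : S_MAIN) (hDc : IsConnected D) (hDb : Bornology.IsBounded D)
    (Γ : Type u) [Group Γ] [MulAction Γ (TorTube hD 1)]
    (hΓ : OrbAction (b + 1) Γ (TorTube hD 1))
    (hpr : ∀ K : Set (TorTube hD 1), IsCompact K → {γ : Γ | ∃ y ∈ K, γ • y ∈ K}.Finite)
    (hK : ∃ h, KahlerMetric (b + 1) (TorTube hD 1) h ∧
      ∀ γ : Γ, InvMetric (b + 1) h (fun y : TorTube hD 1 => γ • y)) :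
    ∃ Λ : (Fin b → ℂ) → Fin (2 * 1) → Fin 1 → ℂ,
      LatticeFamily D Λ ∧ ContainsLattice hD Λ Γ := by
  classical
  -- the image of `Γ` in the permutations of `D × ℂ`
  let Γ' : Subgroup (Equiv.Perm (TorTube hD 1)) := (MulAction.toPermHom Γ (TorTube hD 1)).range
  have hmem : ∀ γ : Γ, MulAction.toPermHom Γ (TorTube hD 1) γ ∈ Γ' := fun γ => ⟨γ, rfl⟩
  have hsm : ∀ (γ : Γ) (y : TorTube hD 1),
      ((⟨_, hmem γ⟩ : Γ') • y) = γ • y := fun γ y => rfl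
  have hex : ∀ γ' : Γ', ∃ γ : Γ, ∀ y : TorTube hD 1, γ' • y = γ • y := by
    rintro ⟨_, γ, rfl⟩
    exact ⟨γ, fun y => rfl⟩
  have hfin : ∀ U : Set (TorTube hD 1), {γ : Γ | ∃ y ∈ U, γ • y ∈ U}.Finite →
      {γ' : Γ' | ∃ y ∈ U, γ' • y ∈ U}.Finite := by
    intro U hU
    refine (hU.image fun γ : Γ => (⟨_, hmem γ⟩ : Γ')).subset ?_
    rintro ⟨_, γ, rfl⟩ ⟨y, hy, hy'⟩
    exact ⟨γ, ⟨y, hy, hy'⟩, rfl⟩
  have hΓ' : OrbAction (b + 1) Γ' (TorTube hD 1) := by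
    refine ⟨fun γ' => ?_, fun x => ?_, ?_⟩
    · obtain ⟨γ, hγ⟩ := hex γ'
      have e : (fun x : TorTube hD 1 => γ' • x) = fun x => γ • x := funext hγ
      rw [e]
      exact hΓ.holo γ
    · obtain ⟨U, hU, h⟩ := hΓ.proper x
      exact ⟨U, hU, hfin U h⟩
    · obtain ⟨K, hK, h⟩ := hΓ.cocompact
      refine ⟨K, hK, fun x => ?_⟩
      obtain ⟨γ, hγ⟩ := h x
      exact ⟨⟨_, hmem γ⟩, hγ⟩
  obtain ⟨h, hh, hinv⟩ := hK
  obtain ⟨Λ, hΛ, hc⟩ := hmain hD hDc hDb Γ' hΓ' (fun K hK => hfin K (hpr K hK)) ⟨h, hh, fun γ' => by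
    obtain ⟨γ, hγ⟩ := hex γ'
    have e : (fun x : TorTube hD 1 => γ' • x) = fun x => γ • x := funext hγ
    rw [e]
    exact hinv γ⟩
  refine ⟨Λ, hΛ, fun m => ?_⟩
  obtain ⟨γ', hγ'⟩ := hc m
  obtain ⟨γ, hγ⟩ := hex γ'
  exact ⟨γ, fun y => by rw [← hγ, hγ']⟩

/-- Compact Kähler quotients of `D × ℂ`. -/
theorem orb (hmain : S_MAIN) (hDc : IsConnected D) (hDb : Bornology.IsBounded D)
    (Γ : Type u) [Group Γ] [MulAction Γ (TorTube hD 1)]
    (hΓ : OrbAction (b + 1) Γ (TorTube hD 1))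
    (hpr : ∀ K : Set (TorTube hD 1), IsCompact K → {γ : Γ | ∃ y ∈ K, γ • y ∈ K}.Finite)
    (hK : ∃ h, KahlerMetric (b + 1) (TorTube hD 1) h ∧
      ∀ γ : Γ, InvMetric (b + 1) h (fun y : TorTube hD 1 => γ • y)) :
    (∃ Λ : (Fin b → ℂ) → Fin (2 * 1) → Fin 1 → ℂ,
      LatticeFamily D Λ ∧ ContainsLattice hD Λ Γ) ∧ OrbSemiample (b + 1) Γ (TorTube hD 1) := by
  obtain ⟨Λ, hΛ, hc⟩ := main_univ hD hmain hDc hDb Γ hΓ hpr hK
  refine ⟨⟨Λ, hΛ, hc⟩, ?_⟩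
  obtain ⟨h, hh, hinv⟩ := hK
  have hKT : KahlerTorusFamily hD Λ := by
    refine ⟨h, hh, fun m => ?_⟩
    obtain ⟨γ, hγ⟩ := hc m
    have e : latShift hD Λ m = fun x : TorTube hD 1 => γ • x := by
      funext y
      exact (hγ y).symm
    rw [e]
    exact hinv γ
  let _ : MulAction Γ (tube D hD 1) := inferInstanceAs (MulAction Γ (TorTube hD 1))
  exact orbSemiample_of_torus Pool.Agent.Helper79.Orb.stmtCosetLqOfMassMod
    Pool.Agent.Helper36.Orb.stmtMassModOfFund hD hDc (finiteMass_of_bounded hDb) hΛ hKT hΓ hc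

/-- Compact Kähler manifolds with a Galois covering `D × ℂ`. -/
theorem gal (hmain : S_MAIN) (h1 : S_DKHOL.{u}) (h2 : S_DKPR.{u}) (h3 : S_DKCO.{u})
    (h4 : S_DKMET.{u}) (h5 : S_DKLOC) (h6 : S_FIBIM.{u})
    (hDc : IsConnected D) (hDb : Bornology.IsBounded D) {X : Type u} [TopologicalSpace X]
    [T2Space X] [CompactSpace X] [ChartedSpace (Fin (b + 1) → ℂ) X]
    [IsManifold 𝓘(ℂ, Fin (b + 1) → ℂ) ω X] (hK : ∃ g, KahlerMetric (b + 1) X g)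
    (P : TorTube hD 1 → X) (hP : HolCovering (b + 1) P) (hG : Galois P) :
    CanSemiample (b + 1) X ∧ (∃ Λ : (Fin b → ℂ) → Fin (2 * 1) → Fin 1 → ℂ,
      LatticeFamily D Λ ∧ ∀ (m : Fin (2 * 1) → ℤ) (y : TorTube hD 1),
        P (latShift hD Λ m y) = P y) ∧
    ∀ z ∈ D, IsCompact (P '' {y : TorTube hD 1 | base (tval y) = z}) := by
  have hcont : Continuous P := hP.2.1.continuous
  have hpr := h2 hD hDc X P hcont hP.2.1
  obtain ⟨h, hh, hinv⟩ := h4 hD X P hP hK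
  have hΓ : OrbAction (b + 1) (Deck P) (TorTube hD 1) := by
    refine ⟨fun γ => h1 hD X P hP γ.1 γ.2, h5 hD (Deck P) hpr, ?_⟩
    exact h3 hD X P hP.1 hP.2.1 hG
  obtain ⟨Λ, hΛ, hc⟩ := main_univ hD hmain hDc hDb (Deck P) hΓ hpr
    ⟨h, hh, fun γ => hinv _ (h1 hD X P hP γ.1 γ.2) γ.2⟩
  have hper : ∀ (m : Fin (2 * 1) → ℤ) (y : TorTube hD 1), P (latShift hD Λ m y) = P y := by
    intro m y
    obtain ⟨γ, hγ⟩ := hc m
    rw [← hγ y]
    exact γ.2 y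
  refine ⟨?_, ⟨Λ, hΛ, hper⟩, h6 hD Λ hΛ X P hcont hper⟩
  obtain ⟨g, hg, hg'⟩ := hK
  exact canSemiample_of_torus_family hD hDc (finiteMass_of_bounded hDb) hΛ.1 hΛ.2
    ⟨g, hg, fun V ψ hV hψ => (hg' V ψ ⟨hV, hψ⟩).1, fun V ψ hV hψ => (hg' V ψ ⟨hV, hψ⟩).2⟩
    P hP.1 hP.2.1 hP.2.2 fun m y y' hy => by
      have e : y' = latShift hD Λ m y := Subtype.ext hy
      rw [e]
      exact hper m y

end orb

end Pool.Agent.Helper95.Lin
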