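import Pool.Agent.Helper95.Lin.Final
import Pool.Agent.Helper10.Lin.CarD
import Pool.Agent.Helper10.Lin.PhDiv
import Pool.Agent.Helper11.Lin.DKCO
import Pool.Agent.Helper11.Lin.DKHOL
import Pool.Agent.Helper19.Lin.GLOB
import Pool.Agent.Helper19.Lin.IDT
import Pool.Agent.Helper19.Lin.KACT
import Pool.Agent.Helper19.Lin.POS
import Pool.Agent.Helper22.Lin.Euler
import Pool.Agent.Helper22.Lin.Fibim
import Pool.Agent.Helper22.Lin.Lower
import Pool.Agent.Helper22.Lin.PU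
import Pool.Agent.Helper22.Lin.PhNat
import Pool.Agent.Helper22.Lin.Scale
import Pool.Agent.Helper27.Lin.Montel
import Pool.Agent.Helper27.Lin.Tga
import Pool.Agent.Helper3.Lin.Alt
import Pool.Agent.Helper3.Lin.Plu
import Pool.Agent.Helper31.Lin.Lalg
import Pool.Agent.Helper31.Lin.Moll
import Pool.Agent.Helper32.Lin.Leib
import Pool.Agent.Helper32.Lin.Weak
import Pool.Agent.Helper33.Lin.CMP
import Pool.Agent.Helper33.Lin.LATT
import Pool.Agent.Helper33.Lin.NEAR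
import Pool.Agent.Helper34.Lin.Dkmet
import Pool.Agent.Helper36.Lin.Dfl
import Pool.Agent.Helper36.Lin.Fwd
import Pool.Agent.Helper36.Lin.Mdom
import Pool.Agent.Helper36.Lin.Psi
import Pool.Agent.Helper36.Lin.Stay
import Pool.Agent.Helper36.Lin.Steps
import Pool.Agent.Helper38.Lin.IBP
import Pool.Agent.Helper38.Lin.LogH
import Pool.Agent.Helper45.Lin.Carc
import Pool.Agent.Helper45.Lin.KMain
import Pool.Agent.Helper49.Lin.ExTime
import Pool.Agent.Helper60.Lin.Mlim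
import Pool.Agent.Helper67.Lin.MOLC
import Pool.Agent.Helper67.Lin.MOLW
import Pool.Agent.Helper68.Lin.ADL
import Pool.Agent.Helper68.Lin.CAREX
import Pool.Agent.Helper68.Lin.CAU
import Pool.Agent.Helper68.Lin.MAIN
import Pool.Agent.Helper68.Lin.PWR
import Pool.Agent.Helper68.Lin.UNI
import Pool.Agent.Helper70.Lin.Chv
import Pool.Agent.Helper70.Lin.LevIbp
import Pool.Agent.Helper71.Lin.CarEq
import Pool.Agent.Helper71.Lin.CleUp
import Pool.Agent.Helper71.Lin.LCmp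
import Pool.Agent.Helper71.Lin.LLim
import Pool.Agent.Helper71.Lin.NoAb
import Pool.Agent.Helper74.Lin.AffPacket
import Pool.Agent.Helper75.Lin.Fin
import Pool.Agent.Helper75.Lin.FlowEx
import Pool.Agent.Helper77.Lin.DKPR
import Pool.Agent.Helper79.Lin.Lrho
import Pool.Agent.Helper79.Lin.Unf
import Pool.Agent.Helper80.Lin.Appk
import Pool.Agent.Helper80.Lin.Rho
import Pool.Agent.Helper82.Lin.Mass
import Pool.Agent.Helper85.Lin.DepF
import Pool.Agent.Helper85.Lin.Discr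
import Pool.Agent.Helper85.Lin.KE
import Pool.Agent.Helper85.Lin.MaxSol
import Pool.Agent.Helper87.Lin.Carp
import Pool.Agent.Helper87.Lin.Dep
import Pool.Agent.Helper87.Lin.Dkloc
import Pool.Agent.Helper88.Lin.ADAPX
import Pool.Agent.Helper88.Lin.EXT
import Pool.Agent.Helper88.Lin.FIBC
import Pool.Agent.Helper88.Lin.FINMAP
import Pool.Agent.Helper88.Lin.GEN
import Pool.Agent.Helper88.Lin.NOSS
import Pool.Agent.Helper89.Lin.Phell
import Pool.Agent.Helper89.Lin.T0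
import Pool.Agent.Helper9.Lin.Extr
import Pool.Agent.Helper9.Lin.Lev
import Pool.Agent.Helper9.Lin.LogInt
import Pool.Agent.Helper90.Lin.Rec
import Pool.Agent.Helper92.Lin.StepA
import Pool.Agent.Helper92.Lin.StepSz
import Pool.Agent.Helper94.Lin.Cryst
import Pool.Agent.Helper94.Lin.Dlim
import Pool.Agent.Helper94.Lin.Lie1
import Pool.Agent.Helper94.Lin.Lie2
import Pool.Agent.Helper94.Lin.Strip

/-! # Assembly -/

open Complex Metric Set Filter Topology MeasureTheory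
open scoped ContDiff ComplexConjugate ComplexOrder Manifold ENNReal

namespace Pool.Agent.Helper95.Lin

open Pool.Agent.Helper16.Abund Pool.Agent.Helper92.Orb

universe u

theorem t_MONTEL : S_MONTEL :=
  _root_.Helper27.LinMontel.montel 

theorem t_IDT : S_IDT :=
  _root_.Pool.Agent.Helper19.Lin.idt 

theorem t_DLIM : S_DLIM :=
  _root_.Pool.Agent.Helper94.Lin.dlim 

theorem t_CAU : S_CAU :=
  _root_.Pool.Agent.Helper68.Lin.CAU 

theorem t_CLEUP : S_CLEUP :=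
  _root_.Pool.Agent.Helper71.Lin.cleup 

theorem t_NEAR : S_NEAR :=
  _root_.Pool.Agent.Helper33.Lin.stmtNEAR t_CLEUP

theorem t_STAY : S_STAY :=
  _root_.Pool.Agent.Helper36.Lin.stay t_CLEUP t_NEAR

theorem t_PWR : S_PWR :=
  _root_.Pool.Agent.Helper68.Lin.PWR t_CLEUP

theorem t_STEPS : S_STEPS :=
  _root_.Pool.Agent.Helper36.Lin.steps t_CLEUP t_NEAR

theorem t_CMP : S_CMP :=
  _root_.Pool.Agent.Helper33.Lin.stmtCMP t_MONTEL t_IDT t_CAU

theorem t_SCALE : S_SCALE :=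
  _root_.Pool.Agent.Helper22.Lin.scale t_PWR t_CAU

theorem t_EXT : S_EXT :=
  _root_.Pool.Agent.Helper88.Lin.ext t_MONTEL t_IDT t_CMP t_SCALE

theorem t_LADD : S_LADD :=
  _root_.Pool.Agent.Helper88.Lin.ladd t_PWR

theorem t_LLIM : S_LLIM :=
  _root_.Pool.Agent.Helper71.Lin.llim 

theorem t_ADAPX : S_ADAPX :=
  _root_.Pool.Agent.Helper88.Lin.adapx t_PWR t_CAU

theorem t_ADL : S_ADL :=
  _root_.Pool.Agent.Helper68.Lin.ADL 

theorem t_BRL : S_BRL :=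
  _root_.Pool.Agent.Helper88.Lin.brl t_LADD t_LLIM t_ADAPX t_ADL

theorem t_LCMP : S_LCMP :=
  _root_.Pool.Agent.Helper71.Lin.lcmp t_CMP

theorem t_FIN : S_FIN :=
  _root_.Pool.Agent.Helper75.Lin.fin t_MONTEL t_IDT t_LCMP t_LLIM

theorem t_LALG : S_LALG :=
  _root_.Pool.Agent.Helper31.Lin.lalg t_LADD t_BRL t_ADL t_FIN

theorem t_LIE1 : S_LIE1 :=
  _root_.Helper94.Lin.lie1 

theorem t_LIE2 : S_LIE2 :=
  _root_.Helper94.Lin.lie2 

theorem t_RIG : S_RIG :=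
  _root_.Helper94.Lin.rig 

theorem t_ALT : S_ALT :=
  _root_.Pool.Agent.Helper3.Lin.ALT t_LALG t_LIE1 t_LIE2 t_ADAPX t_LCMP

theorem t_PLU : S_PLU :=
  _root_.Pool.Agent.Helper3.Lin.PLU 

theorem t_UNI : S_UNI :=
  _root_.Pool.Agent.Helper68.Lin.UNI t_CAU

theorem t_MAXSOL : S_MAXSOL :=
  _root_.Pool.Agent.Helper85.Lin.s_maxsol t_PLU t_UNI

theorem t_EULER : S_EULER :=
  _root_.Pool.Agent.Helper22.Lin.euler t_STEPS t_CAU

theorem t_GLOB : S_GLOB :=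
  _root_.Pool.Agent.Helper19.Lin.glob t_MAXSOL t_PLU t_EULER

theorem t_FLOWEX : S_FLOWEX :=
  _root_.Pool.Agent.Helper75.Lin.flowEx t_GLOB t_EULER t_DLIM t_LADD

theorem t_DFL : S_DFL :=
  _root_.Pool.Agent.Helper36.Lin.dfl 

theorem t_PSI : S_PSI :=
  _root_.Pool.Agent.Helper36.Lin.psi 

theorem t_DEP : S_DEP :=
  _root_.Pool.Agent.Helper87.Lin.dep t_DFL t_PSI

theorem t_DEPF : S_DEPF :=
  _root_.Pool.Agent.Helper85.Lin.s_depf t_DEP t_FLOWEX t_LADD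

theorem t_STEPSZ : S_STEPSZ :=
  _root_.Pool.Agent.Helper92.Lin.stepsz 

theorem t_STEPA : S_STEPA :=
  _root_.Pool.Agent.Helper92.Lin.stepa 

theorem t_REC : S_REC :=
  _root_.Pool.Agent.Helper90.Lin.rec' t_RIG

theorem t_CARC : S_CARC :=
  _root_.Pool.Agent.Helper45.Lin.carc t_CAU

theorem t_CARP : S_CARP :=
  _root_.Pool.Agent.Helper87.Lin.carp t_CARC

theorem t_CAREQ : S_CAREQ :=
  _root_.Pool.Agent.Helper71.Lin.careq 

theorem t_CARD : S_CARD :=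
  _root_.Pool.Agent.Helper10.Lin.card t_IDT t_CARC

theorem t_CAREX : S_CAREX :=
  _root_.Pool.Agent.Helper68.Lin.CAREX t_MONTEL t_DLIM t_CARC

theorem t_EXTR : S_EXTR :=
  _root_.Pool.Agent.Helper9.Lin.extr t_CARC

theorem t_LOWER : S_LOWER :=
  _root_.Pool.Agent.Helper22.Lin.lower t_CAREQ t_CARC t_CAU

theorem t_EXTIME : S_EXTIME :=
  _root_.Pool.Agent.Helper49.Lin.exTime t_PLU

theorem t_STRIP : S_STRIP :=
  _root_.Helper94.Lin.strip 

theorem t_FWD : S_FWD :=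
  _root_.Pool.Agent.Helper36.Lin.fwd t_MAXSOL t_FLOWEX t_LADD t_PSI t_CAREX t_EXTR t_LOWER t_EXTIME t_STRIP

theorem t_NOAB : S_NOAB :=
  _root_.Pool.Agent.Helper71.Lin.noab t_FWD t_FLOWEX t_PSI

theorem t_PHDIV : S_PHDIV :=
  _root_.Pool.Agent.Helper10.Lin.phdiv 

theorem t_PHNAT : S_PHNAT :=
  _root_.Pool.Agent.Helper22.Lin.phnat 

theorem t_PHELL : S_PHELL :=
  _root_.Pool.Agent.Helper89.Lin.phell 

theorem t_KE : S_KE :=
  _root_.Pool.Agent.Helper85.Lin.s_ke t_PHDIV t_PHNAT t_PHELL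

theorem t_IBP : S_IBP :=
  _root_.Pool.Agent.Helper38.Lin.ibp 

theorem t_LEIB : S_LEIB :=
  _root_.Pool.Agent.Helper32.Lin.sLEIB 

theorem t_LEXP : S_LEXP :=
  _root_.Pool.Agent.Helper32.Lin.sLEXP 

theorem t_LEVIBP : S_LEVIBP :=
  _root_.Pool.Agent.Helper70.Lin.levibp 

theorem t_CHV : S_CHV :=
  _root_.Pool.Agent.Helper70.Lin.chv 

theorem t_PU : S_PU :=
  _root_.Pool.Agent.Helper22.Lin.pu 

theorem t_RHO : S_RHO :=
  _root_.Pool.Agent.Helper80.Lin.rho 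

theorem t_UNF : S_UNF :=
  _root_.Pool.Agent.Helper79.Lin.unf t_CHV

theorem t_LRHO : S_LRHO :=
  _root_.Pool.Agent.Helper79.Lin.lrho t_IBP t_LEIB t_UNF

theorem t_MASS : S_MASS :=
  _root_.Pool.Agent.Helper82.Lin.mass t_UNF t_LEXP

theorem t_MLIM : S_MLIM :=
  _root_.Pool.Agent.Helper60.Lin.mlim t_MASS t_LRHO

theorem t_MOLL : S_MOLL :=
  _root_.Pool.Agent.Helper31.Lin.S_MOLL 

theorem t_POS : S_POS :=
  _root_.Pool.Agent.Helper19.Lin.pos t_MOLL t_IBP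

theorem t_LEV : S_LEV :=
  _root_.Pool.Agent.Helper9.Lin.lev_dom t_MOLL t_IBP t_LEVIBP

theorem t_MDOM : S_MDOM :=
  _root_.Pool.Agent.Helper36.Lin.mdom t_POS t_CHV

theorem t_LOGINT : S_LOGINT :=
  _root_.Pool.Agent.Helper9.Lin.logint 

theorem t_WEAK : S_WEAK :=
  _root_.Pool.Agent.Helper32.Lin.sWEAK 

theorem t_MOLW : S_MOLW :=
  _root_.Pool.Agent.Helper67.Lin.stmtMOLW 

theorem t_MOLC : S_MOLC :=
  _root_.Pool.Agent.Helper67.Lin.stmtMOLC 

theorem t_LOGH : S_LOGH :=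
  _root_.Pool.Agent.Helper38.Lin.logh t_MOLW t_MOLC

theorem t_KMAIN : S_KMAIN :=
  _root_.Pool.Agent.Helper45.Lin.kmain t_PU t_RHO t_MLIM t_MDOM t_LEV t_LOGINT t_WEAK t_LOGH

theorem t_AFF : S_AFF :=
  _root_.Pool.Agent.Helper74.Lin.aff_packet 

theorem t_TGA : S_TGA :=
  _root_.Helper27.LinTga.tga 

theorem t_T0 : S_T0 :=
  _root_.Pool.Agent.Helper89.Lin.t0 t_AFF

theorem t_KACT : S_KACT :=
  _root_.Pool.Agent.Helper19.Lin.kact t_TGA

theorem t_DISC : S_DISC :=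
  _root_.Pool.Agent.Helper88.Lin.disc t_EXT

theorem t_FINMAP : S_FINMAP :=
  _root_.Pool.Agent.Helper88.Lin.finmap t_MONTEL t_STAY t_CAU

theorem t_FIBC : S_FIBC :=
  _root_.Pool.Agent.Helper88.Lin.fibc t_FINMAP

theorem t_CRYST : S_CRYST :=
  _root_.Helper94.Lin.cryst 

theorem t_LATT : S_LATT :=
  _root_.Pool.Agent.Helper33.Lin.stmtLATT t_FIBC t_CRYST

theorem t_APPK : S_APPK :=
  _root_.Pool.Agent.Helper80.Lin.appk t_KE t_KMAIN t_CARC t_CARP t_CAREQ t_CARD t_DEPF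

theorem t_DKHOL : S_DKHOL.{u} :=
  _root_.Pool.Agent.Helper11.Lin.dkhol.{u} 

theorem t_DKPR : S_DKPR.{u} :=
  _root_.Pool.Agent.Helper77.Lin.DKPR.{u} 

theorem t_DKCO : S_DKCO.{u} :=
  _root_.Pool.Agent.Helper11.Lin.dkco.{u} 

theorem t_DKMET : S_DKMET.{u} :=
  _root_.Pool.Agent.Helper34.Lin.dkmet.{u} 

theorem t_DKLOC : S_DKLOC :=
  _root_.Pool.Agent.Helper87.Lin.dkloc 

theorem t_FIBIM : S_FIBIM.{u} :=
  _root_.Pool.Agent.Helper22.Lin.fibim.{u} 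

theorem t_NOSS : S_NOSS :=
  _root_.Pool.Agent.Helper88.Lin.noss t_STEPSZ t_STEPA t_REC t_PWR t_TGA

theorem t_DISCR : S_DISCR :=
  _root_.Pool.Agent.Helper85.Lin.s_discr t_DISC t_ALT t_NOSS t_APPK t_NOAB

theorem t_MAIN : S_MAIN :=
  _root_.Pool.Agent.Helper68.Lin.MAIN t_T0 t_KACT t_DISCR t_LATT


variable {b : ℕ} {D : Set (Fin b → ℂ)} (hD : IsOpen D)

/-- Compact Kähler quotients of `D × ℂ` with quotient singularities. -/
theorem orbifold_quotient (hDc : IsConnected D) (hDb : Bornology.IsBounded D)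
    (Γ : Type u) [Group Γ] [MulAction Γ (TorTube hD 1)]
    (hΓ : OrbAction (b + 1) Γ (TorTube hD 1))
    (hpr : ∀ K : Set (TorTube hD 1), IsCompact K → {γ : Γ | ∃ y ∈ K, γ • y ∈ K}.Finite)
    (hK : ∃ h, KahlerMetric (b + 1) (TorTube hD 1) h ∧
      ∀ γ : Γ, InvMetric (b + 1) h (fun y : TorTube hD 1 => γ • y)) :
    (∃ Λ : (Fin b → ℂ) → Fin (2 * 1) → Fin 1 → ℂ,
      LatticeFamily D Λ ∧ ContainsLattice hD Λ Γ) ∧ OrbSemiample (b + 1) Γ (TorTube hD 1) :=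
  orb hD t_MAIN hDc hDb Γ hΓ hpr hK

/-- Compact Kähler manifolds with a Galois covering `D × ℂ`. -/
theorem galois_covering (hDc : IsConnected D) (hDb : Bornology.IsBounded D) {X : Type u}
    [TopologicalSpace X] [T2Space X] [CompactSpace X] [ChartedSpace (Fin (b + 1) → ℂ) X]
    [IsManifold 𝓘(ℂ, Fin (b + 1) → ℂ) ω X] (hK : ∃ g, KahlerMetric (b + 1) X g)
    (P : TorTube hD 1 → X) (hP : HolCovering (b + 1) P) (hG : Galois P) :
    CanSemiample (b + 1) X ∧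
      ∀ z ∈ D, IsCompact (P '' {y : TorTube hD 1 | base (tval y) = z}) := by
  have h := gal hD t_MAIN t_DKHOL t_DKPR t_DKCO t_DKMET t_DKLOC t_FIBIM hDc hDb hK P hP hG
  exact ⟨h.1, h.2.2⟩

end Pool.Agent.Helper95.Lin
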