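import Mathlib

/-!
# Groups acting on `D × ℂ`, `D` a bounded domain: definitions

Internal definitions for the theorem that a group acting holomorphically, properly discontinuously
and cocompactly on `D × ℂ` (with `D ⊂ ℂᵇ` a bounded domain), preserving a Kähler metric, contains a
lattice of fibrewise translations.
-/

open Complex Metric Set Filter Topology MeasureTheory
open scoped ContDiff ComplexConjugate ComplexOrder

namespace Pool.Agent.Helper95.Lin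

/-- `ℂⁿ`. -/
abbrev Cn (n : ℕ) : Type := Fin n → ℂ

/-- `D` is a bounded domain. -/
structure Dom {b : ℕ} (D : Set (Cn b)) : Prop where
  isOpen : IsOpen D
  conn : IsConnected D
  bdd : Bornology.IsBounded D

/-- A holomorphic action of the group `Γ` on the open set `M` of `ℂⁿ`. -/
structure GAct {n : ℕ} (M : Set (Cn n)) {Γ : Type} [Group Γ] (T : Γ → Cn n → Cn n) : Prop where
  isOpen : IsOpen M
  holo : ∀ γ, DifferentiableOn ℂ (T γ) M
  maps : ∀ γ, ∀ x ∈ M, T γ x ∈ M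
  one : ∀ x ∈ M, T 1 x = x
  mul : ∀ γ γ', ∀ x ∈ M, T (γ * γ') x = T γ (T γ' x)

/-- A cocompact holomorphic action on the bounded domain `D` (not necessarily properly
discontinuous). -/
structure HAct {b : ℕ} (D : Set (Cn b)) {Γ : Type} [Group Γ] (g : Γ → Cn b → Cn b) : Prop where
  dom : Dom D
  act : GAct D g
  coc : ∃ K ⊆ D, IsCompact K ∧ ∀ z ∈ D, ∃ γ, g γ z ∈ K

/-- A properly discontinuous and cocompact action `(z, w) ↦ (g_γ z, a_γ(z) w + β_γ(z))` on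
`D × ℂ`. -/
structure LAct {b : ℕ} (D : Set (Cn b)) {Γ : Type} [Group Γ] (g : Γ → Cn b → Cn b)
    (a β : Γ → Cn b → ℂ) : Prop where
  base : HAct D g
  a_holo : ∀ γ, DifferentiableOn ℂ (a γ) D
  b_holo : ∀ γ, DifferentiableOn ℂ (β γ) D
  a_ne : ∀ γ, ∀ z ∈ D, a γ z ≠ 0
  a_one : ∀ z ∈ D, a 1 z = 1
  b_one : ∀ z ∈ D, β 1 z = 0
  a_mul : ∀ γ γ', ∀ z ∈ D, a (γ * γ') z = a γ (g γ' z) * a γ' z
  b_mul : ∀ γ γ', ∀ z ∈ D, β (γ * γ') z = a γ (g γ' z) * β γ' z + β γ (g γ' z)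
  proper : ∀ K ⊆ D, IsCompact K → ∀ R : ℝ,
    {γ | ∃ z ∈ K, ∃ w : ℂ, ‖w‖ ≤ R ∧ g γ z ∈ K ∧ ‖a γ z * w + β γ z‖ ≤ R}.Finite
  coc : ∃ K ⊆ D, IsCompact K ∧ ∃ R : ℝ, ∀ z ∈ D, ∀ w : ℂ, ∃ γ, g γ z ∈ K ∧
    ‖a γ z * w + β γ z‖ ≤ R

/-- All holomorphic functions `D → closed unit disc` differ by at most `r` at `x` and `y`
(the Caratheodory distance of `x` and `y` is at most `r`). -/
def CLe {b : ℕ} (D : Set (Cn b)) (r : ℝ) (x y : Cn b) : Prop :=
  ∀ f : Cn b → ℂ, DifferentiableOn ℂ f D → (∀ z ∈ D, ‖f z‖ ≤ 1) → ‖f x - f y‖ ≤ r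

/-- `V` is an infinitesimal generator of the closure of `Γ` in the automorphism group of `D`: on
all small scales `σ` some element of `Γ` moves the points of `K` by `σ V` up to `ε σ`. -/
def InL {b : ℕ} (D : Set (Cn b)) {Γ : Type} [Group Γ] (g : Γ → Cn b → Cn b)
    (V : Cn b → Cn b) : Prop :=
  DifferentiableOn ℂ V D ∧ (∀ z, z ∉ D → V z = 0) ∧
    ∀ K ⊆ D, IsCompact K → ∀ ε > 0, ∃ σ₀ > 0, ∀ σ : ℝ, 0 < σ → σ < σ₀ →
      ∃ γ, ∀ z ∈ K, ‖g γ z - z - σ • V z‖ ≤ ε * σ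

/-- The bracket `DW·V - DV·W` of vector fields. -/
noncomputable def brV {b : ℕ} (V W : Cn b → Cn b) (z : Cn b) : Cn b :=
  fderiv ℂ W z (V z) - fderiv ℂ V z (W z)

/-- The transform of the vector field `V` on `D` by `g_γ`. -/
noncomputable def AdV {b : ℕ} (D : Set (Cn b)) {Γ : Type} [Group Γ] (g : Γ → Cn b → Cn b) (γ : Γ)
    (V : Cn b → Cn b) : Cn b → Cn b :=
  D.indicator fun z => fderiv ℂ (g γ) (g γ⁻¹ z) (V (g γ⁻¹ z))

/-- `φ` is the complete flow of the holomorphic vector field `V` on `D`. -/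
structure IsFlow {b : ℕ} (D : Set (Cn b)) (V : Cn b → Cn b) (φ : ℝ → Cn b → Cn b) : Prop where
  maps : ∀ t, ∀ z ∈ D, φ t z ∈ D
  holo : ∀ t, DifferentiableOn ℂ (φ t) D
  zero : ∀ z ∈ D, φ 0 z = z
  ode : ∀ z ∈ D, ∀ t, HasDerivAt (fun s => φ s z) (V (φ t z)) t
  cont : ContinuousOn (fun p : ℝ × Cn b => φ p.1 p.2) (univ ×ˢ D)

/-- `A` is the adjoint action on a commutative family of linearly independent generators. -/
structure AbFam {b : ℕ} (D : Set (Cn b)) {Γ : Type} [Group Γ] (g : Γ → Cn b → Cn b) (m : ℕ)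
    (V : Fin m → Cn b → Cn b) (A : Γ →* Matrix (Fin m) (Fin m) ℝ) : Prop where
  pos : 0 < m
  inL : ∀ i, InL D g (V i)
  indep : LinearIndependent ℝ V
  comm : ∀ i j, ∀ z ∈ D, brV (V i) (V j) z = 0
  ad : ∀ γ i, ∀ z ∈ D, fderiv ℂ (g γ) z (V i z) = ∑ k, A γ k i • V k (g γ z)

/-- An admissible family: holomorphic functions from `D` to the closed unit disc. -/
def Adm {b m : ℕ} (D : Set (Cn b)) (f : Fin m → Cn b → ℂ) : Prop :=
  ∀ j, DifferentiableOn ℂ (f j) D ∧ ∀ w ∈ D, ‖f j w‖ ≤ 1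

/-- The matrix of the derivatives of the functions `f_j` along the fields `V_i` at `z`. -/
noncomputable def vm {b m : ℕ} (V : Fin m → Cn b → Cn b) (f : Fin m → Cn b → ℂ) (z : Cn b) :
    Matrix (Fin m) (Fin m) ℂ :=
  Matrix.of fun i j => fderiv ℂ (f j) z (V i z)

/-- The Caratheodory volume of the family `V`. -/
noncomputable def carF {b m : ℕ} (D : Set (Cn b)) (V : Fin m → Cn b → Cn b) (z : Cn b) : ℝ :=
  sSup {r : ℝ | ∃ f : Fin m → Cn b → ℂ, Adm D f ∧ r = ‖(vm V f z).det‖}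

/-- `u` has the sub-mean value property on all closed complex discs contained in `M`. -/
def PshOn {n : ℕ} (u : Cn n → ℝ) (M : Set (Cn n)) : Prop :=
  ∀ x ∈ M, ∀ e : Cn n, (∀ ζ : ℂ, ‖ζ‖ ≤ 1 → x + ζ • e ∈ M) →
    u x ≤ Real.circleAverage (fun ζ : ℂ => u (x + ζ • e)) 0 1

/-- `u` has the mean value property on all closed complex discs contained in `M`. -/
def MeanOn {n : ℕ} (u : Cn n → ℝ) (M : Set (Cn n)) : Prop :=
  ∀ x ∈ M, ∀ e : Cn n, (∀ ζ : ℂ, ‖ζ‖ ≤ 1 → x + ζ • e ∈ M) →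
    u x = Real.circleAverage (fun ζ : ℂ => u (x + ζ • e)) 0 1

/-- The Hermitian pairing `∑ A i j u_i conj(v_j)`. -/
noncomputable def hermi {k : ℕ} (A : Matrix (Fin k) (Fin k) ℂ) (u v : Fin k → ℂ) : ℂ :=
  ∑ i, ∑ j, A i j * u i * conj (v j)

/-- Twice the derivative `∂/∂z_l` of the (real differentiable) function `f`. -/
noncomputable def cd {n : ℕ} (l : Fin n) (f : Cn n → ℂ) (x : Cn n) : ℂ :=
  fderiv ℝ f x (Pi.single l 1) - I * fderiv ℝ f x (Pi.single l I)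

/-- A properly discontinuous, cocompact holomorphic action on the connected open set `M` of `ℂⁿ`
which preserves the Kähler metric `H`. -/
structure KAct {n : ℕ} (M : Set (Cn n)) {Γ : Type} [Group Γ] (T : Γ → Cn n → Cn n)
    (H : Cn n → Matrix (Fin n) (Fin n) ℂ) : Prop where
  act : GAct M T
  conn : IsConnected M
  proper : ∀ K ⊆ M, IsCompact K → {γ | ∃ x ∈ K, T γ x ∈ K}.Finite
  coc : ∃ K ⊆ M, IsCompact K ∧ ∀ x ∈ M, ∃ γ, T γ x ∈ K
  posDef : ∀ x ∈ M, (H x).PosDef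
  smooth : ∀ i j, ContDiffOn ℝ ∞ (fun x => H x i j) M
  closed : ∀ x ∈ M, ∀ i j l, cd l (fun y => H y i j) x = cd i (fun y => H y l j) x
  inv : ∀ γ, ∀ x ∈ M, ∀ u v, hermi (H (T γ x)) (fderiv ℂ (T γ) x u) (fderiv ℂ (T γ) x v) =
    hermi (H x) u v

/-! ## Real second order operators -/

/-- The real basis `e_j, i e_j` of `ℂⁿ`. -/
noncomputable def rb {n : ℕ} (a : Fin n × Bool) : Cn n := Pi.single a.1 (if a.2 then I else 1)

/-- Partial derivatives. -/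
noncomputable def dd {n : ℕ} (φ : Cn n → ℝ) (a : Fin n × Bool) (x : Cn n) : ℝ :=
  fderiv ℝ φ x (rb a)

/-- The second order operator `∑ P_ab ∂_a ∂_b`. -/
noncomputable def Lop {n : ℕ} (P : Fin n × Bool → Fin n × Bool → Cn n → ℝ) (φ : Cn n → ℝ)
    (x : Cn n) : ℝ :=
  ∑ a, ∑ b, P a b x * dd (dd φ b) a x

/-- The bilinear operator `∑ P_ab ∂_a φ ∂_b ψ`. -/
noncomputable def Bop {n : ℕ} (P : Fin n × Bool → Fin n × Bool → Cn n → ℝ) (φ ψ : Cn n → ℝ)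
    (x : Cn n) : ℝ :=
  ∑ a, ∑ b, P a b x * dd φ a x * dd ψ b x

/-- The second derivative of `φ` at `x` in the directions `u`, `v`. -/
noncomputable def hess {n : ℕ} (φ : Cn n → ℝ) (x u v : Cn n) : ℝ :=
  fderiv ℝ (fun y => fderiv ℝ φ y v) x u

/-- Four times the Levi form: the Laplacian at `0` of `ζ ↦ φ (x + ζ e)`. -/
noncomputable def lev {n : ℕ} (φ : Cn n → ℝ) (x e : Cn n) : ℝ :=
  hess φ x e e + hess φ x (I • e) (I • e)

/-- The operator attached to the Hermitian metric `H`: `P_ab = Re (C_jk conj(ε_s) ε_t)` for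
`a = (j, s)`, `b = (k, t)`, where `C_jk` is the `(j, k)` cofactor of `H`. -/
noncomputable def PH {n : ℕ} (H : Cn n → Matrix (Fin n) (Fin n) ℂ) (a b : Fin n × Bool)
    (x : Cn n) : ℝ :=
  ((H x).adjugate b.1 a.1 * conj (if a.2 then I else 1) * (if b.2 then I else 1)).re

/-- The Jacobian of `T γ` as a real map. -/
noncomputable def Jac {n : ℕ} {Γ : Type} (T : Γ → Cn n → Cn n) (γ : Γ) (x : Cn n) : ℝ :=
  ‖(fderiv ℂ (T γ) x).det‖ ^ 2

/-- `φ` is a test function on `M`. -/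
def TestF {n : ℕ} (M : Set (Cn n)) (φ : Cn n → ℝ) : Prop :=
  ContDiff ℝ ∞ φ ∧ HasCompactSupport φ ∧ tsupport φ ⊆ M

/-- A properly discontinuous, cocompact holomorphic action together with an invariant elliptic
operator in divergence form which dominates the Levi form of plurisubharmonic functions. -/
structure EAct {n : ℕ} (M : Set (Cn n)) {Γ : Type} [Group Γ] (T : Γ → Cn n → Cn n)
    (P : Fin n × Bool → Fin n × Bool → Cn n → ℝ) : Prop where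
  act : GAct M T
  conn : IsConnected M
  proper : ∀ K ⊆ M, IsCompact K → {γ | ∃ x ∈ K, T γ x ∈ K}.Finite
  coc : ∃ K ⊆ M, IsCompact K ∧ ∀ x ∈ M, ∃ γ, T γ x ∈ K
  smooth : ∀ a b, ContDiffOn ℝ ∞ (P a b) M
  symm : ∀ a b, ∀ x ∈ M, P a b x = P b a x
  div : ∀ b, ∀ x ∈ M, ∑ a, dd (P a b) a x = 0
  nat : ∀ γ φ, ContDiffOn ℝ ∞ φ M → ∀ x ∈ M, Lop P (φ ∘ T γ) x = Jac T γ x * Lop P φ (T γ x)
  ell : ∀ K ⊆ M, IsCompact K → ∃ C : ℝ, 0 ≤ C ∧ ∀ φ : Cn n → ℝ, ContDiffOn ℝ ∞ φ M → ∀ x ∈ K,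
    (∀ e, 0 ≤ lev φ x e) → 0 ≤ Lop P φ x ∧ ∀ e, ‖e‖ ≤ 1 → lev φ x e ≤ C * Lop P φ x

/-! ## Lie algebras -/

/-- The Banach algebra of endomorphisms of `ℝᵖ`. -/
abbrev Endo (p : ℕ) : Type := (Fin p → ℝ) →L[ℝ] (Fin p → ℝ)

/-- A bilinear product on `ℝᵖ`. -/
abbrev Br (p : ℕ) : Type := (Fin p → ℝ) →ₗ[ℝ] (Fin p → ℝ) →ₗ[ℝ] (Fin p → ℝ)

/-- `y ↦ B x y` as a continuous map. -/
noncomputable def adB {p : ℕ} (B : Br p) (x : Fin p → ℝ) : Endo p :=
  LinearMap.toContinuousLinearMap (B x)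

/-- A nonzero centreless perfect Lie algebra with inner derivations, in coordinates. -/
structure SLie (p : ℕ) (B : Br p) : Prop where
  pos : 0 < p
  skew : ∀ x y, B x y = - B y x
  jac : ∀ x y z, B x (B y z) = B (B x y) z + B y (B x z)
  center : ∀ x, (∀ y, B x y = 0) → x = 0
  inner : ∀ δ : (Fin p → ℝ) →ₗ[ℝ] (Fin p → ℝ),
    (∀ x y, δ (B x y) = B (δ x) y + B x (δ y)) → ∃ u, ∀ y, δ y = B u y
  perfect : Submodule.span ℝ {z | ∃ x y, z = B x y} = ⊤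

/-- Products of at most `N` commutators of members of the tuple `γ`. -/
def Words {p : ℕ} {Γ : Type} [Group Γ] (N : ℕ) (γ : Fin p → Γ) : Set Γ :=
  {δ | ∃ l : List (Fin p × Fin p), l.length ≤ N ∧
    δ = (l.map fun q => γ q.1 * γ q.2 * (γ q.1)⁻¹ * (γ q.2)⁻¹).prod}

/-- `T γ` and `T γ⁻¹` move the points of the ball by at most `d`. -/
def Sz {n : ℕ} {Γ : Type} [Group Γ] (T : Γ → Cn n → Cn n) (z₀ : Cn n) (r d : ℝ) (γ : Γ) : Prop :=
  ∀ x ∈ ball z₀ r, ‖T γ x - x‖ ≤ d ∧ ‖T γ⁻¹ x - x‖ ≤ d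

/-- The logarithmic derivative of `a γ` is at most `L` on the ball. -/
def Lz {n : ℕ} {Γ : Type} (a : Γ → Cn n → ℂ) (z₀ : Cn n) (r L : ℝ) (γ : Γ) : Prop :=
  ∀ x ∈ ball z₀ r, ‖fderiv ℂ (a γ) x‖ ≤ L * ‖a γ x‖

/-- The closure of `Γ` in the automorphism group of `D` has a semisimple quotient `(ℝᵖ, B)` on
which `Γ` acts by `P`. -/
structure SData {b : ℕ} (D : Set (Cn b)) {Γ : Type} [Group Γ] (g : Γ → Cn b → Cn b) (p : ℕ)
    (B : Br p) (P : Γ →* Endo p) : Prop where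
  lie : SLie p B
  aut : ∀ γ x y, P γ (B x y) = B (P γ x) (P γ y)
  approx : ∀ K ⊆ D, IsCompact K → ∀ ε > 0, ∃ σ₀ > 0, ∀ σ : ℝ, 0 < σ → σ < σ₀ → ∀ k : Fin p,
    ∃ γ, (∀ z ∈ K, ‖g γ z - z‖ ≤ ε) ∧ ‖P γ - 1 - σ • adB B (Pi.single k 1)‖ ≤ ε * σ

/-! ## Mollifiers -/

/-- A smooth bump function on `ℂⁿ` that depends only on the absolute values of the coordinates and
is supported in the closed ball of radius `ε`. -/
noncomputable def bump (n : ℕ) (ε : ℝ) (y : Cn n) : ℝ :=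
  expNegInvGlue (1 - (∑ j, ‖y j‖ ^ 2) / ε ^ 2)

/-- The normalized bump function. -/
noncomputable def mol (n : ℕ) (ε : ℝ) (y : Cn n) : ℝ := (∫ x, bump n ε x)⁻¹ * bump n ε y

/-- The mollification of `u`. -/
noncomputable def moll {n : ℕ} (u : Cn n → ℝ) (ε : ℝ) (x : Cn n) : ℝ :=
  ∫ y, u (x - y) * mol n ε y

end Pool.Agent.Helper95.Lin
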