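import Pool.Agent.Helper95.Lin.GoalsI

/-! # Goals J: Galois coverings -/

open Complex Metric Set Filter Topology MeasureTheory
open scoped ContDiff ComplexConjugate ComplexOrder Manifold

namespace Pool.Agent.Helper95.Lin

open Pool.Agent.Helper16.Abund Pool.Agent.Helper92.Orb

universe u

section deck

variable {b : ℕ} {D : Set (Fin b → ℂ)} {hD : IsOpen D} {X : Type u}

/-- The deck transformation group of the map `P : D × ℂ → X`. -/
def Deck (P : TorTube hD 1 → X) : Subgroup (TorTube hD 1 ≃ₜ TorTube hD 1) where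
  carrier := {h | ∀ y, P (h y) = P y}
  one_mem' := fun _ => rfl
  mul_mem' := fun {a b} ha hb y => by
    change P (a (b y)) = P y
    rw [ha, hb]
  inv_mem' := fun {a} ha y => by
    have h := ha (a⁻¹ y)
    rw [show a (a⁻¹ y) = y from a.apply_symm_apply y] at h
    exact h.symm

instance (P : TorTube hD 1 → X) : MulAction (Deck P) (TorTube hD 1) where
  smul h y := h.1 y
  one_smul _ := rfl
  mul_smul _ _ _ := rfl

/-- `P` is Galois: the deck transformations act transitively on the fibres. -/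
def Galois (P : TorTube hD 1 → X) : Prop :=
  ∀ y y', P y = P y' → ∃ h : TorTube hD 1 ≃ₜ TorTube hD 1, (∀ v, P (h v) = P v) ∧ h y = y'

end deck

/-- Deck transformations are holomorphic. -/
def S_DKHOL : Prop := ∀ {b : ℕ} {D : Set (Cn b)} (hD : IsOpen D) (X : Type u)
  [TopologicalSpace X] [ChartedSpace (Fin (b + 1) → ℂ) X]
  [IsManifold 𝓘(ℂ, Fin (b + 1) → ℂ) ω X] (P : TorTube hD 1 → X), HolCovering (b + 1) P →
  ∀ h : TorTube hD 1 ≃ₜ TorTube hD 1, (∀ v, P (h v) = P v) →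
    MDifferentiable 𝓘(ℂ, Fin (b + 1) → ℂ) 𝓘(ℂ, Fin (b + 1) → ℂ) h

/-- The deck group acts properly. -/
def S_DKPR : Prop := ∀ {b : ℕ} {D : Set (Cn b)} (hD : IsOpen D), IsConnected D → ∀ (X : Type u)
  [TopologicalSpace X] [T2Space X] (P : TorTube hD 1 → X), Continuous P → IsCoveringMap P →
  ∀ K : Set (TorTube hD 1), IsCompact K → {γ : Deck P | ∃ y ∈ K, γ • y ∈ K}.Finite

/-- The deck group of a Galois covering of a compact space acts cocompactly. -/
def S_DKCO : Prop := ∀ {b : ℕ} {D : Set (Cn b)} (hD : IsOpen D) (X : Type u)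
  [TopologicalSpace X] [CompactSpace X] (P : TorTube hD 1 → X), Function.Surjective P →
  IsCoveringMap P → Galois P →
  ∃ K : Set (TorTube hD 1), IsCompact K ∧ ∀ x : TorTube hD 1, ∃ γ : Deck P, γ • x ∈ K

/-- The pulled back Kähler metric. -/
def S_DKMET : Prop := ∀ {b : ℕ} {D : Set (Cn b)} (hD : IsOpen D) (X : Type u)
  [TopologicalSpace X] [ChartedSpace (Fin (b + 1) → ℂ) X]
  [IsManifold 𝓘(ℂ, Fin (b + 1) → ℂ) ω X] (P : TorTube hD 1 → X), HolCovering (b + 1) P →
  (∃ g, KahlerMetric (b + 1) X g) → ∃ h, KahlerMetric (b + 1) (TorTube hD 1) h ∧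
    ∀ T : TorTube hD 1 → TorTube hD 1,
      MDifferentiable 𝓘(ℂ, Fin (b + 1) → ℂ) 𝓘(ℂ, Fin (b + 1) → ℂ) T → (∀ v, P (T v) = P v) →
      InvMetric (b + 1) h T

/-- From the local form of properness: `OrbAction.proper`. -/
def S_DKLOC : Prop := ∀ {b : ℕ} {D : Set (Cn b)} (hD : IsOpen D) (Γ : Type) [Group Γ]
  [MulAction Γ (TorTube hD 1)],
  (∀ K : Set (TorTube hD 1), IsCompact K → {γ : Γ | ∃ y ∈ K, γ • y ∈ K}.Finite) →
  ∀ x : TorTube hD 1, ∃ U ∈ 𝓝 x, {γ : Γ | ∃ y ∈ U, γ • y ∈ U}.Finite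

/-- The images of the fibres are compact. -/
def S_FIBIM : Prop := ∀ {b : ℕ} {D : Set (Cn b)} (hD : IsOpen D)
  (Λ : Cn b → Fin (2 * 1) → Fin 1 → ℂ), LatticeFamily D Λ → ∀ (X : Type u) [TopologicalSpace X]
  (P : TorTube hD 1 → X), Continuous P →
  (∀ (m : Fin (2 * 1) → ℤ) (y : TorTube hD 1), P (latShift hD Λ m y) = P y) →
  ∀ z ∈ D, IsCompact (P '' {y : TorTube hD 1 | base (tval y) = z})

end Pool.Agent.Helper95.Lin
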